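import Mathlib

set_option autoImplicit false

namespace Pool.Agent.Helper309.Jump

open Relation

/-- strings over terminals and nonterminals -/
abbrev Str (T N : Type) := List (Symbol T N)

/-- one jumping derivation step for a rule relation `R` -/
def JS {T N : Type} (R : Str T N → Str T N → Prop) (x y : Str T N) : Prop :=
  ∃ l r, R l r ∧ ∃ u v u' v', x = u ++ l ++ v ∧ y = u' ++ r ++ v' ∧ u ++ v = u' ++ v'

/-- the language generated in jumping mode -/
def JL {T N : Type} (R : Str T N → Str T N → Prop) (S : N) : Set (List T) :=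
  {w | ReflTransGen (JS R) [Symbol.nonterminal S] (w.map Symbol.terminal)}

theorem uniq {α : Type*} {p : α → Prop} {a b : α} : ∀ {u u1 v v1 : List α}
    (_ : ∀ x ∈ u, ¬ p x) (_ : ∀ x ∈ v, ¬ p x) (_ : p b)
    (_ : u ++ a :: v = u1 ++ b :: v1), u = u1 ∧ a = b ∧ v = v1 := by
  intro u
  induction u with
  | nil =>
    intro u1 v v1 _ hv hb h
    cases u1 with
    | nil => simpa using h
    | cons c u1 =>
      simp only [List.nil_append, List.cons_append, List.cons.injEq] at h
      exact absurd hb (hv b (by rw [h.2]; simp))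
  | cons c u ih =>
    intro u1 v v1 hu hv hb h
    cases u1 with
    | nil =>
      simp only [List.cons_append, List.nil_append, List.cons.injEq] at h
      exact absurd hb (by rw [← h.1]; exact hu c (by simp))
    | cons c1 u1 =>
      simp only [List.cons_append, List.cons.injEq] at h
      obtain ⟨h1, h2, h3⟩ := ih (fun x hx => hu x (by simp [hx])) hv hb h.2
      exact ⟨by rw [h.1, h1], h2, h3⟩

theorem JS.mk {T N : Type} {R : Str T N → Str T N → Prop} {l r : Str T N} (h : R l r)
    (u v u' v' : Str T N) (e : u ++ v = u' ++ v') : JS R (u ++ l ++ v) (u' ++ r ++ v') :=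
  ⟨l, r, h, u, v, u', v', rfl, rfl, e⟩

/-- context-sensitive form of a rule -/
def IsCS {T N : Type} (a b : Str T N) : Prop :=
  ∃ (α β γ : Str T N) (A : N), γ ≠ [] ∧
    a = α ++ [Symbol.nonterminal A] ++ β ∧ b = α ++ γ ++ β

section Compile

variable {T N : Type} (ctl : N → Prop) (R : Str T N → Str T N → Prop)

/-- no control symbol occurs -/
def Free (c : Str T N) : Prop := ∀ x ∈ c, ¬ ∃ A, ctl A ∧ x = Symbol.nonterminal A

def Normal (l r : Str T N) : Prop :=
  (∃ (X : N) (As : List N), l = Symbol.nonterminal X :: (As.map Symbol.nonterminal) ∧ ctl X ∧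
    (∀ A ∈ As, ¬ ctl A) ∧ As.length ≤ 2) ∧
  l.length ≤ r.length ∧
  (Free ctl r ∨ ∃ (r1 : Str T N) (X' : N), r = r1 ++ [Symbol.nonterminal X'] ∧ ctl X' ∧ Free ctl r1)

/-- rules as a type -/
abbrev Rho := {ρ : Str T N × Str T N // R ρ.1 ρ.2}

/-- new nonterminals -/
abbrev N2 := N ⊕ (Rho R × Fin 3)

def emb (x : Symbol T N) : Symbol T (N2 R) :=
  match x with
  | Symbol.terminal t => Symbol.terminal t
  | Symbol.nonterminal A => Symbol.nonterminal (Sum.inl A)

/-- marked symbols -/
def J (ρ : Rho R) (i : Fin 3) : Symbol T (N2 R) := Symbol.nonterminal (Sum.inr (ρ, i))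

/-- intermediate blocks -/
def Mid (ρ : Rho R) (z : Str T (N2 R)) : Prop :=
  z.length = ρ.1.1.length ∧ (∃ i : Fin 3, z[i.val]? = some (J R ρ i)) ∧
  (∀ (k : ℕ) (ρ' : Rho R) (j : Fin 3), z[k]? = some (J R ρ' j) → ρ' = ρ ∧ j.val = k) ∧
  (∀ A, ctl A → Symbol.nonterminal (Sum.inl A) ∉ z)

def R2 (a b : Str T (N2 R)) : Prop :=
  IsCS a b ∧ ∃ ρ : Rho R, (a = ρ.1.1.map (emb R) ∨ Mid ctl R ρ a) ∧
    (b = ρ.1.2.map (emb R) ∨ Mid ctl R ρ b)

theorem emb_inj : Function.Injective (emb R) := by
  intro x y h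
  cases x <;> cases y <;> simp_all [emb]

theorem emb_ne_J (x : Symbol T N) (ρ : Rho R) (i : Fin 3) : emb R x ≠ J R ρ i := by
  cases x <;> simp [emb, J]

theorem J_not_mem_emb (c : Str T N) (ρ : Rho R) (i : Fin 3) : J R ρ i ∉ c.map (emb R) := by
  intro h
  rw [List.mem_map] at h
  obtain ⟨x, _, hx⟩ := h
  exact emb_ne_J R x ρ i hx

theorem map_emb_append {c : Str T N} {a b : Str T (N2 R)} (h : c.map (emb R) = a ++ b) :
    ∃ a' b', c = a' ++ b' ∧ a = a'.map (emb R) ∧ b = b'.map (emb R) := by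
  rw [List.map_eq_append_iff] at h
  obtain ⟨a', b', h1, h2, h3⟩ := h
  exact ⟨a', b', h1, h2.symm, h3.symm⟩

/-- configurations of the source grammar contain at most one control symbol -/
theorem one_ctl (hN : ∀ l r, R l r → Normal ctl l r) {S : N} (hS : ctl S) {c : Str T N}
    (h : ReflTransGen (JS R) [Symbol.nonterminal S] c) :
    Free ctl c ∨ ∃ u X v, c = u ++ Symbol.nonterminal X :: v ∧ ctl X ∧ Free ctl u ∧ Free ctl v := by
  induction h with
  | refl => exact Or.inr ⟨[], S, [], rfl, hS, by simp [Free], by simp [Free]⟩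
  | tail _ hs ih =>
    obtain ⟨l, r, hR, u, v, u', v', h1, h2, h3⟩ := hs
    obtain ⟨⟨X, As, hl, hX, hAs, _⟩, _, hr⟩ := hN l r hR
    subst h1 h2
    have key : Free ctl (u' ++ v') := by
      rw [← h3]
      rcases ih with ih | ⟨u0, X0, v0, e, hX0, hu0, hv0⟩
      · exfalso
        refine ih (Symbol.nonterminal X) ?_ ⟨X, hX, rfl⟩
        simp [hl]
      · have e' : u0 ++ Symbol.nonterminal X0 :: v0 =
            u ++ Symbol.nonterminal X :: (As.map Symbol.nonterminal ++ v) := by
          rw [← e, hl]; simp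
        obtain ⟨h4, _, h6⟩ := uniq (p := fun x => ∃ A, ctl A ∧ x = Symbol.nonterminal A)
          hu0 hv0 ⟨X, hX, rfl⟩ e'
        intro x hx
        rcases List.mem_append.1 hx with hx | hx
        · exact hu0 x (by rw [h4]; exact hx)
        · exact hv0 x (by rw [h6]; simp [hx])
    have ku' : Free ctl u' := fun x hx => key x (by simp [hx])
    have kv' : Free ctl v' := fun x hx => key x (by simp [hx])
    rcases hr with hr | ⟨r1, X', e, hX', hr1⟩
    · left
      intro x hx
      simp only [List.mem_append] at hx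
      rcases hx with (hx | hx) | hx
      · exact ku' x hx
      · exact hr x hx
      · exact kv' x hx
    · right
      refine ⟨u' ++ r1, X', v', by rw [e]; simp, hX', ?_, kv'⟩
      intro x hx
      rcases List.mem_append.1 hx with hx | hx
      · exact ku' x hx
      · exact hr1 x hx

theorem Mid.split {ρ ρ1 : Rho R} {z z1 : Str T (N2 R)} {u v : Str T N} {u1 v1 : Str T (N2 R)}
    (hz : Mid ctl R ρ z) (hz1 : Mid ctl R ρ1 z1)
    (e : u.map (emb R) ++ z ++ v.map (emb R) = u1 ++ z1 ++ v1) :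
    ρ1 = ρ ∧ z1 = z ∧ u1 = u.map (emb R) ∧ v1 = v.map (emb R) := by
  obtain ⟨hlen, _, hJ, _⟩ := hz
  obtain ⟨hlen1, ⟨i, hi⟩, hJ1, _⟩ := hz1
  have hmem1 : J R ρ1 i ∈ z1 := List.mem_of_getElem? hi
  have hmem : J R ρ1 i ∈ z := by
    have : J R ρ1 i ∈ u.map (emb R) ++ z ++ v.map (emb R) := by rw [e]; simp [hmem1]
    simp only [List.mem_append] at this
    rcases this with (h | h) | h
    · exact absurd h (J_not_mem_emb R u ρ1 i)
    · exact h
    · exact absurd h (J_not_mem_emb R v ρ1 i)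
  obtain ⟨k, hk⟩ := List.mem_iff_getElem?.1 hmem
  obtain ⟨hρ, hik⟩ := hJ k ρ1 i hk
  subst hρ
  have hk' : k < z.length := by
    by_contra hcon
    rw [List.getElem?_eq_none (by omega)] at hk
    exact absurd hk (by simp)
  -- split z and z1 at the index
  have hz : z = z.take k ++ J R ρ1 i :: z.drop (k + 1) := by
    have h1 : z[k] = J R ρ1 i := by
      have := List.getElem?_eq_getElem hk'
      rw [this] at hk
      exact Option.some.inj hk
    rw [← h1]
    simp
  have hki' : i.val < z1.length := by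
    by_contra hcon
    rw [List.getElem?_eq_none (by omega)] at hi
    exact absurd hi (by simp)
  have hz1 : z1 = z1.take i.val ++ J R ρ1 i :: z1.drop (i.val + 1) := by
    have h1 : z1[i.val] = J R ρ1 i := by
      have := List.getElem?_eq_getElem hki'
      rw [this] at hi
      exact Option.some.inj hi
    rw [← h1]
    simp
  have e' : (u.map (emb R) ++ z.take k) ++ J R ρ1 i :: (z.drop (k + 1) ++ v.map (emb R)) =
      (u1 ++ z1.take i.val) ++ J R ρ1 i :: (z1.drop (i.val + 1) ++ v1) := by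
    have : u.map (emb R) ++ (z.take k ++ J R ρ1 i :: z.drop (k + 1)) ++ v.map (emb R) =
        u1 ++ (z1.take i.val ++ J R ρ1 i :: z1.drop (i.val + 1)) ++ v1 := by
      rw [← hz, ← hz1]; exact e
    simpa using this
  have nd : ∀ m, z[m]? = some (J R ρ1 i) → m = k := by
    intro m hm
    obtain ⟨_, h2⟩ := hJ m ρ1 i hm
    omega
  obtain ⟨h1, _, h3⟩ := uniq (p := fun x => x = J R ρ1 i) (by
      intro x hx hxe
      subst hxe
      rcases List.mem_append.1 hx with hx | hx
      · exact J_not_mem_emb R u ρ1 i hx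
      · obtain ⟨m, hm⟩ := List.mem_iff_getElem?.1 hx
        rw [List.getElem?_take] at hm
        split_ifs at hm with hlt
        · exact absurd (nd m hm) (by omega)) (by
      intro x hx hxe
      subst hxe
      rcases List.mem_append.1 hx with hx | hx
      · obtain ⟨m, hm⟩ := List.mem_iff_getElem?.1 hx
        rw [List.getElem?_drop] at hm
        exact absurd (nd _ hm) (by omega)
      · exact J_not_mem_emb R v ρ1 i hx) rfl e'
  have l1 : (z.take k).length = (z1.take i.val).length := by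
    simp only [List.length_take]; omega
  obtain ⟨h4, h5⟩ := List.append_inj' h1 l1
  have l2 : (z.drop (k + 1)).length = (z1.drop (i.val + 1)).length := by
    simp only [List.length_drop]; omega
  obtain ⟨h6, h7⟩ := List.append_inj h3 l2
  refine ⟨rfl, ?_, h4.symm, h7.symm⟩
  rw [hz, hz1, h5, h6]

/-- invariant of the compiled grammar -/
def Inv (S : N) (c : Str T (N2 R)) : Prop :=
  (∃ c1, c = c1.map (emb R) ∧ ReflTransGen (JS R) [Symbol.nonterminal S] c1) ∨
  (∃ (ρ : Rho R) (z : Str T (N2 R)) (u v u' v' : Str T N), Mid ctl R ρ z ∧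
    c = u.map (emb R) ++ z ++ v.map (emb R) ∧ u' ++ v' = u ++ v ∧
    ReflTransGen (JS R) [Symbol.nonterminal S] (u' ++ ρ.1.1 ++ v') ∧
    Free ctl u ∧ Free ctl v)

theorem inv_step (hN : ∀ l r, R l r → Normal ctl l r) {S : N} (hS : ctl S)
    {c d : Str T (N2 R)} (hc : Inv ctl R S c) (hs : JS (R2 ctl R) c d) : Inv ctl R S d := by
  obtain ⟨a, b, ⟨_, ρ, ha, hb⟩, u, v, u', v', h1, h2, h3⟩ := hs
  have hρ := ρ.2
  obtain ⟨⟨X, As, hl, hX, hAs, _⟩, _, hr⟩ := hN _ _ hρ
  rcases hc with ⟨c1, hc1, hreach⟩ | ⟨ρ0, z, u0, v0, u0', v0', hz, hc, e0, hreach, hfu, hfv⟩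
  · -- c is a source configuration
    rcases ha with ha | ha
    · rw [hc1, ha] at h1
      obtain ⟨w, v1, e1, e2, e3⟩ := map_emb_append R h1
      obtain ⟨u1, m1, e4, e5, e6⟩ := map_emb_append R e2.symm
      have e7 : m1 = ρ.1.1 := (List.map_injective_iff.2 (emb_inj R)) e6.symm
      subst e7
      -- control-freeness
      have hfree : Free ctl u1 ∧ Free ctl v1 := by
        rcases one_ctl ctl R hN hS hreach with ih | ⟨u0, X0, v0, e, hX0, hu0, hv0⟩
        · exfalso
          refine ih (Symbol.nonterminal X) ?_ ⟨X, hX, rfl⟩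
          rw [e1, e4, hl]; simp
        · have e' : u0 ++ Symbol.nonterminal X0 :: v0 =
              u1 ++ Symbol.nonterminal X :: (As.map Symbol.nonterminal ++ v1) := by
            rw [← e, e1, e4, hl]; simp
          obtain ⟨h4, _, h6⟩ := uniq (p := fun x => ∃ A, ctl A ∧ x = Symbol.nonterminal A)
            hu0 hv0 ⟨X, hX, rfl⟩ e'
          refine ⟨by rw [← h4]; exact hu0, ?_⟩
          intro x hx
          exact hv0 x (by rw [h6]; simp [hx])
      rw [e5, e3, ← List.map_append] at h3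
      obtain ⟨u2, v2, e8, e9, e10⟩ := map_emb_append R h3
      have hreach' : ReflTransGen (JS R) [Symbol.nonterminal S] (u1 ++ ρ.1.1 ++ v1) := by
        rw [← e4, ← e1]; exact hreach
      have hf2 : Free ctl u2 ∧ Free ctl v2 := by
        constructor
        · intro x hx
          have : x ∈ u1 ++ v1 := by rw [e8]; simp [hx]
          rcases List.mem_append.1 this with h | h
          · exact hfree.1 x h
          · exact hfree.2 x h
        · intro x hx
          have : x ∈ u1 ++ v1 := by rw [e8]; simp [hx]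
          rcases List.mem_append.1 this with h | h
          · exact hfree.1 x h
          · exact hfree.2 x h
      rcases hb with hb | hb
      · left
        refine ⟨u2 ++ ρ.1.2 ++ v2, by rw [h2, hb, e9, e10]; simp, ?_⟩
        exact hreach'.tail (JS.mk hρ _ _ _ _ e8)
      · right
        refine ⟨ρ, b, u2, v2, u1, v1, hb, by rw [h2, e9, e10], e8, hreach', hf2.1, hf2.2⟩
    · exfalso
      obtain ⟨_, ⟨i, hi⟩, _⟩ := ha
      have hm := List.mem_of_getElem? hi
      apply J_not_mem_emb R c1 ρ i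
      rw [← hc1, h1]; simp [hm]
  · -- c contains an intermediate block
    rcases ha with ha | ha
    · exfalso
      have hm : Symbol.nonterminal (Sum.inl X) ∈ u0.map (emb R) ++ z ++ v0.map (emb R) := by
        rw [← hc, h1, ha, hl]
        simp [emb]
      simp only [List.mem_append, List.mem_map] at hm
      rcases hm with (⟨x, hx, hxe⟩ | h) | ⟨x, hx, hxe⟩
      · refine hfu x hx ⟨X, hX, ?_⟩
        exact emb_inj R hxe
      · exact hz.2.2.2 X hX h
      · refine hfv x hx ⟨X, hX, ?_⟩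
        exact emb_inj R hxe
    · obtain ⟨h4, h5, h6, h7⟩ := Mid.split ctl R hz ha (by rw [← hc, h1])
      subst h4 h5
      rw [h6, h7, ← List.map_append] at h3
      obtain ⟨u2, v2, e8, e9, e10⟩ := map_emb_append R h3
      have hf2 : Free ctl u2 ∧ Free ctl v2 := by
        constructor
        · intro x hx
          have : x ∈ u0 ++ v0 := by rw [e8]; simp [hx]
          rcases List.mem_append.1 this with h | h
          · exact hfu x h
          · exact hfv x h
        · intro x hx
          have : x ∈ u0 ++ v0 := by rw [e8]; simp [hx]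
          rcases List.mem_append.1 this with h | h
          · exact hfu x h
          · exact hfv x h
      rcases hb with hb | hb
      · left
        refine ⟨u2 ++ ρ.1.2 ++ v2, by rw [h2, hb, e9, e10]; simp, ?_⟩
        exact hreach.tail (JS.mk hρ _ _ _ _ (by rw [e0, e8]))
      · right
        refine ⟨ρ, b, u2, v2, u0', v0', hb, by rw [h2, e9, e10], by rw [e0, e8], hreach, hf2.1, hf2.2⟩

theorem compile_sound (hN : ∀ l r, R l r → Normal ctl l r) {S : N} (hS : ctl S) :
    JL (R2 ctl R) (Sum.inl S) ⊆ JL R S := by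
  intro w hw
  have h : Inv ctl R S (w.map Symbol.terminal) := by
    have hw' : ReflTransGen (JS (R2 ctl R)) [Symbol.nonterminal (Sum.inl S)]
      (w.map Symbol.terminal) := hw
    have : ∀ c, ReflTransGen (JS (R2 ctl R)) [Symbol.nonterminal (Sum.inl S)] c →
        Inv ctl R S c := by
      intro c hc
      induction hc with
      | refl => exact Or.inl ⟨[Symbol.nonterminal S], by simp [emb], ReflTransGen.refl⟩
      | tail _ hs ih => exact inv_step ctl R hN hS ih hs
    exact this _ hw'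
  rcases h with ⟨c1, hc1, hreach⟩ | ⟨ρ, z, u, v, u', v', hz, hc, _⟩
  · have : c1 = w.map Symbol.terminal := by
      apply (List.map_injective_iff.2 (emb_inj R))
      rw [← hc1]
      simp [emb, Function.comp_def]
    rw [this] at hreach
    exact hreach
  · exfalso
    obtain ⟨_, ⟨i, hi⟩, _⟩ := hz
    have hm := List.mem_of_getElem? hi
    have : J R ρ i ∈ w.map (Symbol.terminal (N := N2 R)) := by rw [hc]; simp [hm]
    rw [List.mem_map] at this
    obtain ⟨x, _, hx⟩ := this
    simp [J] at hx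

/-- a symbol admissible at index `i` of an intermediate block -/
def OkAt (ρ : Rho R) (i : Fin 3) (a : Symbol T (N2 R)) : Prop :=
  a = J R ρ i ∨ ∃ x, a = emb R x ∧ ¬ ∃ A, ctl A ∧ x = Symbol.nonterminal A

theorem OkAt.J_eq {ρ ρ' : Rho R} {i j : Fin 3} {a : Symbol T (N2 R)} (h : OkAt ctl R ρ i a)
    (e : a = J R ρ' j) : ρ' = ρ ∧ j.val = i.val := by
  rcases h with h | ⟨x, h, _⟩
  · rw [h] at e
    simp only [J, Symbol.nonterminal.injEq, Sum.inr.injEq, Prod.mk.injEq] at e
    exact ⟨e.1.symm, by rw [e.2]⟩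
  · rw [h] at e
    exact absurd e (emb_ne_J R x ρ' j)

theorem OkAt.noctl {ρ : Rho R} {i : Fin 3} {a : Symbol T (N2 R)} (h : OkAt ctl R ρ i a)
    {A : N} (hA : ctl A) : Symbol.nonterminal (Sum.inl A) ≠ a := by
  rcases h with h | ⟨x, h, hx⟩
  · rw [h]; simp [J]
  · rw [h]
    intro e
    apply hx
    refine ⟨A, hA, ?_⟩
    apply emb_inj R
    rw [← e]
    rfl

theorem mid2 {ρ : Rho R} (hl : ρ.1.1.length = 2) {a b : Symbol T (N2 R)}
    (ha : OkAt ctl R ρ 0 a) (hb : OkAt ctl R ρ 1 b) (h : a = J R ρ 0 ∨ b = J R ρ 1) :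
    Mid ctl R ρ [a, b] := by
  refine ⟨by simp [hl], ?_, ?_, ?_⟩
  · rcases h with h | h
    · exact ⟨0, by simp [h]⟩
    · exact ⟨1, by simp [h]⟩
  · intro k ρ' j hk
    rcases k with _ | _ | k
    · simp only [List.getElem?_cons_zero, Option.some.injEq] at hk
      exact ha.J_eq ctl R hk
    · simp only [zero_add, List.getElem?_cons_succ, List.getElem?_cons_zero, Option.some.injEq] at hk
      exact hb.J_eq ctl R hk
    · simp at hk
  · intro A hA hm
    simp only [List.mem_cons, List.not_mem_nil, or_false] at hm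
    rcases hm with h | h
    · exact ha.noctl ctl R hA h
    · exact hb.noctl ctl R hA h

theorem mid3 {ρ : Rho R} (hl : ρ.1.1.length = 3) {a b c : Symbol T (N2 R)}
    (ha : OkAt ctl R ρ 0 a) (hb : OkAt ctl R ρ 1 b) (hc : OkAt ctl R ρ 2 c)
    (h : a = J R ρ 0 ∨ b = J R ρ 1 ∨ c = J R ρ 2) :
    Mid ctl R ρ [a, b, c] := by
  refine ⟨by simp [hl], ?_, ?_, ?_⟩
  · rcases h with h | h | h
    · exact ⟨0, by simp [h]⟩
    · exact ⟨1, by simp [h]⟩
    · exact ⟨2, by simp [h]⟩
  · intro k ρ' j hk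
    rcases k with _ | _ | _ | k
    · simp only [List.getElem?_cons_zero, Option.some.injEq] at hk
      exact ha.J_eq ctl R hk
    · simp only [zero_add, List.getElem?_cons_succ, List.getElem?_cons_zero, Option.some.injEq] at hk
      exact hb.J_eq ctl R hk
    · simp only [zero_add, List.getElem?_cons_succ, List.getElem?_cons_zero, Option.some.injEq] at hk
      exact hc.J_eq ctl R hk
    · simp at hk
  · intro A hA hm
    simp only [List.mem_cons, List.not_mem_nil, or_false] at hm
    rcases hm with h | h | h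
    · exact ha.noctl ctl R hA h
    · exact hb.noctl ctl R hA h
    · exact hc.noctl ctl R hA h

theorem okJ (ρ : Rho R) (i : Fin 3) : OkAt ctl R ρ i (J R ρ i) := Or.inl rfl

theorem okE (ρ : Rho R) (i : Fin 3) {x : Symbol T N}
    (hx : ¬ ∃ A, ctl A ∧ x = Symbol.nonterminal A) : OkAt ctl R ρ i (emb R x) :=
  Or.inr ⟨x, rfl, hx⟩

/-- `y` is not a control symbol -/
def NC (y : Symbol T N) : Prop := ¬ ∃ A, ctl A ∧ y = Symbol.nonterminal A

theorem sim2 {X A : N} {y0 y1 : Symbol T N} {ys : Str T N}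
    (hR : R [Symbol.nonterminal X, Symbol.nonterminal A] (y0 :: y1 :: ys))
    (hA : ¬ ctl A) (hy0 : NC ctl y0) :
    ∃ z, ReflTransGen (R2 ctl R) ([Symbol.nonterminal X, Symbol.nonterminal A].map (emb R)) z ∧
      R2 ctl R z ((y0 :: y1 :: ys).map (emb R)) := by
  let ρ : Rho R := ⟨([Symbol.nonterminal X, Symbol.nonterminal A], y0 :: y1 :: ys), hR⟩
  have hlen : ρ.1.1.length = 2 := rfl
  have kA : OkAt ctl R ρ 1 (Symbol.nonterminal (Sum.inl A)) := by
    apply okE ctl R ρ 1 (x := Symbol.nonterminal A)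
    rintro ⟨B, hB, e⟩
    simp only [Symbol.nonterminal.injEq] at e
    exact hA (e ▸ hB)
  have k0 : OkAt ctl R ρ 0 (emb R y0) := okE ctl R ρ 0 hy0
  have s1 : R2 ctl R ([Symbol.nonterminal X, Symbol.nonterminal A].map (emb R))
      [J R ρ 0, Symbol.nonterminal (Sum.inl A)] := by
    refine ⟨⟨[], [Symbol.nonterminal (Sum.inl A)], [J R ρ 0], Sum.inl X, by simp, by simp [emb],
      by simp⟩, ρ, Or.inl rfl, Or.inr (mid2 ctl R hlen (okJ ctl R ρ 0) kA (Or.inl rfl))⟩
  have s2 : R2 ctl R [J R ρ 0, Symbol.nonterminal (Sum.inl A)] [J R ρ 0, J R ρ 1] := by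
    refine ⟨⟨[J R ρ 0], [], [J R ρ 1], Sum.inl A, by simp, by simp, by simp⟩, ρ,
      Or.inr (mid2 ctl R hlen (okJ ctl R ρ 0) kA (Or.inl rfl)),
      Or.inr (mid2 ctl R hlen (okJ ctl R ρ 0) (okJ ctl R ρ 1) (Or.inl rfl))⟩
  have s3 : R2 ctl R [J R ρ 0, J R ρ 1] [emb R y0, J R ρ 1] := by
    refine ⟨⟨[], [J R ρ 1], [emb R y0], Sum.inr (ρ, 0), by simp, by simp [J], by simp⟩, ρ,
      Or.inr (mid2 ctl R hlen (okJ ctl R ρ 0) (okJ ctl R ρ 1) (Or.inl rfl)),
      Or.inr (mid2 ctl R hlen k0 (okJ ctl R ρ 1) (Or.inr rfl))⟩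
  have s4 : R2 ctl R [emb R y0, J R ρ 1] ((y0 :: y1 :: ys).map (emb R)) := by
    refine ⟨⟨[emb R y0], [], (y1 :: ys).map (emb R), Sum.inr (ρ, 1), by simp, by simp [J],
      by simp⟩, ρ, Or.inr (mid2 ctl R hlen k0 (okJ ctl R ρ 1) (Or.inr rfl)), Or.inl rfl⟩
  exact ⟨_, ((ReflTransGen.single s1).tail s2).tail s3, s4⟩

theorem sim3 {X A B : N} {y0 y1 y2 : Symbol T N} {ys : Str T N}
    (hR : R [Symbol.nonterminal X, Symbol.nonterminal A, Symbol.nonterminal B]
      (y0 :: y1 :: y2 :: ys))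
    (hA : ¬ ctl A) (hB : ¬ ctl B) (hy0 : NC ctl y0) (hy1 : NC ctl y1) :
    ∃ z, ReflTransGen (R2 ctl R)
        ([Symbol.nonterminal X, Symbol.nonterminal A, Symbol.nonterminal B].map (emb R)) z ∧
      R2 ctl R z ((y0 :: y1 :: y2 :: ys).map (emb R)) := by
  let ρ : Rho R := ⟨([Symbol.nonterminal X, Symbol.nonterminal A, Symbol.nonterminal B],
    y0 :: y1 :: y2 :: ys), hR⟩
  have hlen : ρ.1.1.length = 3 := rfl
  have kA : OkAt ctl R ρ 1 (Symbol.nonterminal (Sum.inl A)) := by
    apply okE ctl R ρ 1 (x := Symbol.nonterminal A)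
    rintro ⟨C, hC, e⟩
    simp only [Symbol.nonterminal.injEq] at e
    exact hA (e ▸ hC)
  have kB : OkAt ctl R ρ 2 (Symbol.nonterminal (Sum.inl B)) := by
    apply okE ctl R ρ 2 (x := Symbol.nonterminal B)
    rintro ⟨C, hC, e⟩
    simp only [Symbol.nonterminal.injEq] at e
    exact hB (e ▸ hC)
  have k0 : OkAt ctl R ρ 0 (emb R y0) := okE ctl R ρ 0 hy0
  have k1 : OkAt ctl R ρ 1 (emb R y1) := okE ctl R ρ 1 hy1
  have j0 := okJ ctl R ρ 0
  have j1 := okJ ctl R ρ 1
  have j2 := okJ ctl R ρ 2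
  have m1 : Mid ctl R ρ [J R ρ 0, Symbol.nonterminal (Sum.inl A), Symbol.nonterminal (Sum.inl B)] :=
    mid3 ctl R hlen j0 kA kB (Or.inl rfl)
  have m2 : Mid ctl R ρ [J R ρ 0, J R ρ 1, Symbol.nonterminal (Sum.inl B)] :=
    mid3 ctl R hlen j0 j1 kB (Or.inl rfl)
  have m3 : Mid ctl R ρ [J R ρ 0, J R ρ 1, J R ρ 2] := mid3 ctl R hlen j0 j1 j2 (Or.inl rfl)
  have m4 : Mid ctl R ρ [emb R y0, J R ρ 1, J R ρ 2] :=
    mid3 ctl R hlen k0 j1 j2 (Or.inr (Or.inl rfl))
  have m5 : Mid ctl R ρ [emb R y0, emb R y1, J R ρ 2] :=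
    mid3 ctl R hlen k0 k1 j2 (Or.inr (Or.inr rfl))
  have s1 : R2 ctl R ([Symbol.nonterminal X, Symbol.nonterminal A, Symbol.nonterminal B].map
      (emb R)) [J R ρ 0, Symbol.nonterminal (Sum.inl A), Symbol.nonterminal (Sum.inl B)] := by
    refine ⟨⟨[], [Symbol.nonterminal (Sum.inl A), Symbol.nonterminal (Sum.inl B)], [J R ρ 0],
      Sum.inl X, by simp, by simp [emb], by simp⟩, ρ, Or.inl rfl, Or.inr m1⟩
  have s2 : R2 ctl R [J R ρ 0, Symbol.nonterminal (Sum.inl A), Symbol.nonterminal (Sum.inl B)]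
      [J R ρ 0, J R ρ 1, Symbol.nonterminal (Sum.inl B)] := by
    refine ⟨⟨[J R ρ 0], [Symbol.nonterminal (Sum.inl B)], [J R ρ 1], Sum.inl A, by simp,
      by simp, by simp⟩, ρ, Or.inr m1, Or.inr m2⟩
  have s3 : R2 ctl R [J R ρ 0, J R ρ 1, Symbol.nonterminal (Sum.inl B)]
      [J R ρ 0, J R ρ 1, J R ρ 2] := by
    refine ⟨⟨[J R ρ 0, J R ρ 1], [], [J R ρ 2], Sum.inl B, by simp,
      by simp, by simp⟩, ρ, Or.inr m2, Or.inr m3⟩
  have s4 : R2 ctl R [J R ρ 0, J R ρ 1, J R ρ 2] [emb R y0, J R ρ 1, J R ρ 2] := by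
    refine ⟨⟨[], [J R ρ 1, J R ρ 2], [emb R y0], Sum.inr (ρ, 0), by simp,
      by simp [J], by simp⟩, ρ, Or.inr m3, Or.inr m4⟩
  have s5 : R2 ctl R [emb R y0, J R ρ 1, J R ρ 2] [emb R y0, emb R y1, J R ρ 2] := by
    refine ⟨⟨[emb R y0], [J R ρ 2], [emb R y1], Sum.inr (ρ, 1), by simp,
      by simp [J], by simp⟩, ρ, Or.inr m4, Or.inr m5⟩
  have s6 : R2 ctl R [emb R y0, emb R y1, J R ρ 2] ((y0 :: y1 :: y2 :: ys).map (emb R)) := by
    refine ⟨⟨[emb R y0, emb R y1], [], (y2 :: ys).map (emb R), Sum.inr (ρ, 2), by simp,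
      by simp [J], by simp⟩, ρ, Or.inr m5, Or.inl rfl⟩
  exact ⟨_, ((((ReflTransGen.single s1).tail s2).tail s3).tail s4).tail s5, s6⟩

/-- block-level simulation of one rule -/
theorem block_sim {l r : Str T N} (hR : R l r) (hN : Normal ctl l r) :
    ∃ z, ReflTransGen (R2 ctl R) (l.map (emb R)) z ∧ R2 ctl R z (r.map (emb R)) := by
  obtain ⟨⟨X, As, hl, hX, hAs, hlen⟩, hle, hr⟩ := hN
  have hfree : ∀ (p s : Str T N) (y : Symbol T N), r = p ++ y :: s → s ≠ [] → NC ctl y := by
    intro p s y e hs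
    rcases hr with hr | ⟨r1, X', e', hX', hr1⟩
    · exact hr y (by rw [e]; simp)
    · intro hy
      have hlast : ∃ s', s = s' ++ [Symbol.nonterminal X'] := by
        have h1 : r.getLast? = some (Symbol.nonterminal X') := by rw [e']; simp
        rw [e] at h1
        have h2 : s.getLast? = some (Symbol.nonterminal X') := by
          rw [List.getLast?_append_of_ne_nil _ (by simp)] at h1
          rwa [List.getLast?_cons, List.getLast?_eq_some_getLast hs, Option.getD_some,
            ← List.getLast?_eq_some_getLast hs] at h1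
        exact List.getLast?_eq_some_iff.1 h2
      obtain ⟨s', hs'⟩ := hlast
      have : r1 = p ++ y :: s' := by
        rw [e, hs'] at e'
        have : (p ++ y :: s') ++ [Symbol.nonterminal X'] = r1 ++ [Symbol.nonterminal X'] := by
          simpa using e'
        exact (List.append_cancel_right this).symm
      exact hr1 y (by rw [this]; simp) hy
  match As, hl, hAs, hlen with
  | [], hl, _, _ =>
    let ρ : Rho R := ⟨(l, r), hR⟩
    refine ⟨l.map (emb R), ReflTransGen.refl, ?_, ρ, Or.inl rfl, Or.inl rfl⟩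
    refine ⟨[], [], r.map (emb R), Sum.inl X, ?_, by simp [hl, emb], by simp⟩
    intro h
    have : r.length = 0 := by simpa using congrArg List.length h
    rw [hl] at hle
    simp at hle
    omega
  | [A], hl, hAs, _ =>
    subst hl
    match r, hR, hle, hfree with
    | [], _, hle, _ => simp at hle
    | [_], _, hle, _ => simp at hle
    | y0 :: y1 :: ys, hR, hle, hfree =>
      exact sim2 ctl R hR (hAs A (by simp)) (hfree [] (y1 :: ys) y0 rfl (by simp))
  | [A, B], hl, hAs, _ =>
    subst hl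
    match r, hR, hle, hfree with
    | [], _, hle, _ => simp at hle
    | [_], _, hle, _ => simp at hle
    | [_, _], _, hle, _ => simp at hle
    | y0 :: y1 :: y2 :: ys, hR, hle, hfree =>
      exact sim3 ctl R hR (hAs A (by simp)) (hAs B (by simp))
        (hfree [] (y1 :: y2 :: ys) y0 rfl (by simp))
        (hfree [y0] (y2 :: ys) y1 rfl (by simp))
  | _ :: _ :: _ :: _, _, _, h => simp at h

theorem lift_block {a b : Str T (N2 R)} (h : ReflTransGen (R2 ctl R) a b)
    (u v : Str T (N2 R)) : ReflTransGen (JS (R2 ctl R)) (u ++ a ++ v) (u ++ b ++ v) := by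
  induction h with
  | refl => exact ReflTransGen.refl
  | tail _ hs ih => exact ih.tail (JS.mk hs u v u v rfl)

theorem compile_complete (hN : ∀ l r, R l r → Normal ctl l r) {S : N} :
    JL R S ⊆ JL (R2 ctl R) (Sum.inl S) := by
  intro w hw
  have hw' : ReflTransGen (JS R) [Symbol.nonterminal S] (w.map Symbol.terminal) := hw
  have : ∀ c, ReflTransGen (JS R) [Symbol.nonterminal S] c →
      ReflTransGen (JS (R2 ctl R)) [Symbol.nonterminal (Sum.inl S)] (c.map (emb R)) := by
    intro c hc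
    induction hc with
    | refl => exact ReflTransGen.refl
    | tail _ hs ih =>
      obtain ⟨l, r, hR, u, v, u', v', h1, h2, h3⟩ := hs
      obtain ⟨z, hz1, hz2⟩ := block_sim ctl R hR (hN l r hR)
      have e1 := lift_block ctl R hz1 (u.map (emb R)) (v.map (emb R))
      have e2 : JS (R2 ctl R) (u.map (emb R) ++ z ++ v.map (emb R))
          (u'.map (emb R) ++ r.map (emb R) ++ v'.map (emb R)) :=
        JS.mk hz2 _ _ _ _ (by rw [← List.map_append, h3, List.map_append])
      rw [h1] at ih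
      rw [h2]
      simp only [List.map_append] at ih ⊢
      exact (ih.trans e1).tail e2
  have h := this _ hw'
  have e : (w.map Symbol.terminal).map (emb R) = w.map Symbol.terminal := by
    simp [emb, Function.comp_def]
  rw [e] at h
  exact h

theorem compile_eq (hN : ∀ l r, R l r → Normal ctl l r) {S : N} (hS : ctl S) :
    JL (R2 ctl R) (Sum.inl S) = JL R S :=
  Set.Subset.antisymm (compile_sound ctl R hN hS) (compile_complete ctl R hN)

theorem R2_isCS {a b : Str T (N2 R)} (h : R2 ctl R a b) : IsCS a b := h.1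

theorem R2_bound {M : ℕ} (hM : ∀ l r, R l r → l.length ≤ M ∧ r.length ≤ M)
    {a b : Str T (N2 R)} (h : R2 ctl R a b) : a.length ≤ M ∧ b.length ≤ M := by
  obtain ⟨_, ρ, ha, hb⟩ := h
  have := hM _ _ ρ.2
  constructor
  · rcases ha with ha | ha
    · rw [ha]; simpa using this.1
    · rw [ha.1]; exact this.1
  · rcases hb with hb | hb
    · rw [hb]; simpa using this.2
    · rw [hb.1]; exact this.1

end Compile

end Pool.Agent.Helper309.Jump
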