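import Mathlib
import Pool.Agent.Helper309.Jump1

set_option autoImplicit false

namespace Pool.Agent.Helper309.Jump

open Relation

section Machine

variable (T N : Type) (K : ℕ)

/-- cells: strings of bounded length -/
abbrev Cell := {l : Str T N // l.length ≤ K}

/-- short terminal strings -/
abbrev TS := {l : List T // l.length ≤ K}

/-- memory states: `inl none` empty, `inl (some m)` holds a block to be inserted,
`inr (z, a)` final data -/
abbrev Mem := Option (Cell T N K) ⊕ (TS T K × Option T)

/-- nonterminals of the simulating grammar -/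
inductive NT1
  | start
  | zed
  | cell (c : Cell T N K)
  | X1 (q : Mem T N K) (s1 s2 : Cell T N K)
  | X2 (z : TS T K) (a : Option T) (t : TS T K)
  | fl (a : T)

variable {T N K}

instance [Finite T] [Finite N] : Finite (Cell T N K) := by
  have : Finite (Symbol T N) := by
    have : Function.Injective (fun x : Symbol T N => match x with
      | Symbol.terminal t => (Sum.inl t : T ⊕ N)
      | Symbol.nonterminal n => Sum.inr n) := by
      intro x y h
      cases x <;> cases y <;> simp_all
    exact Finite.of_injective _ this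
  exact (List.finite_length_le (Symbol T N) K).to_subtype

instance [Finite T] : Finite (TS T K) := (List.finite_length_le T K).to_subtype

instance [Finite T] [Finite N] : Finite (NT1 T N K) := by
  have : Function.Injective (fun x : NT1 T N K => match x with
    | NT1.start => (Sum.inl false : Bool ⊕ (Cell T N K ⊕ (Mem T N K × Cell T N K × Cell T N K) ⊕
        (TS T K × Option T × TS T K) ⊕ T))
    | NT1.zed => Sum.inl true
    | NT1.cell c => Sum.inr (Sum.inl c)
    | NT1.X1 q s1 s2 => Sum.inr (Sum.inr (Sum.inl (q, s1, s2)))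
    | NT1.X2 z a t => Sum.inr (Sum.inr (Sum.inr (Sum.inl (z, a, t))))
    | NT1.fl a => Sum.inr (Sum.inr (Sum.inr (Sum.inr a)))) := by
    intro x y h
    cases x <;> cases y <;> simp_all
  exact Finite.of_injective _ this

/-- control symbols: everything except cells -/
def ctl1 : NT1 T N K → Prop
  | NT1.cell _ => False
  | _ => True

/-- `B` derives the single letter `a`, anywhere -/
def UnitTo (P : Str T N → Str T N → Prop) (B : N) (a : T) : Prop :=
  ∀ u v u' v' : Str T N, u ++ v = u' ++ v' →
    ReflTransGen (JS P) (u ++ [Symbol.nonterminal B] ++ v) (u' ++ [Symbol.terminal a] ++ v')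

/-- terminal letters as a string -/
def tm {N : Type} (w : List T) : Str T N := w.map Symbol.terminal

/-- in-place operations on contents -/
inductive Op (P : Str T N → Str T N → Prop) : Mem T N K → Str T N → Str T N → Mem T N K → Prop
  | reb (q : Mem T N K) (c : Str T N) : Op P q c c q
  | put (m : Cell T N K) : Op P (Sum.inl (some m)) [] m.1 (Sum.inl none)
  | pick (x : Str T N) (y : Cell T N K) (h : P x y.1) : Op P (Sum.inl none) x [] (Sum.inl (some y))
  | f1 (z : TS T K) (m : Cell T N K) (hm : m.1 = tm z.1) (h : 2 ≤ z.1.length) :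
      Op P (Sum.inl (some m)) [] [] (Sum.inr (z, none))
  | f2 (z : TS T K) (m : Cell T N K) (p q : List T) (B : N) (a : T)
      (hm : m.1 = tm p ++ [Symbol.nonterminal B] ++ tm q) (hz : z.1 = p ++ q) (h : z.1 ≠ [])
      (hu : UnitTo P B a) : Op P (Sum.inl (some m)) [] [] (Sum.inr (z, some a))
  | f3 (z : TS T K) (m : Cell T N K) (B : N) (a : T) (hm : m.1 = tm z.1) (h : z.1 ≠ [])
      (hu : UnitTo P B a) :
      Op P (Sum.inl (some m)) [Symbol.nonterminal B] [] (Sum.inr (z, some a))

/-- final output block -/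
def out (z : List T) : Option T → Str T (NT1 T N K)
  | none => tm z
  | some a => tm z ++ [Symbol.nonterminal (NT1.fl a)]

/-- the cell symbol -/
def cs (c : Cell T N K) : Symbol T (NT1 T N K) := Symbol.nonterminal (NT1.cell c)

/-- empty cell -/
def cE : Cell T N K := ⟨[], by simp⟩

/-- rules of the simulating grammar -/
inductive Rule1 (P : Str T N → Str T N → Prop) (S : N) (w0 : ℕ) (mS : Cell T N K) :
    Str T (NT1 T N K) → Str T (NT1 T N K) → Prop
  | short (w : List T) (hw : w ∈ JL P S) (hl : w.length < w0) :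
      Rule1 P S w0 mS [Symbol.nonterminal NT1.start] (tm w)
  | init : Rule1 P S w0 mS [Symbol.nonterminal NT1.start] [Symbol.nonterminal NT1.zed]
  | grow : Rule1 P S w0 mS [Symbol.nonterminal NT1.zed] [cs cE, Symbol.nonterminal NT1.zed]
  | launch (s1 s2 : Cell T N K) : Rule1 P S w0 mS [Symbol.nonterminal NT1.zed]
      [cs s1, cs s2, Symbol.nonterminal (NT1.X1 (Sum.inl (some mS)) s1 s2)]
  | op (q q' : Mem T N K) (s1 s2 l1 l2 r1 r2 : Cell T N K)
      (h : Op P q (l1.1 ++ l2.1) (s1.1 ++ s2.1) q') :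
      Rule1 P S w0 mS [Symbol.nonterminal (NT1.X1 q s1 s2), cs l1, cs l2]
        [cs r1, cs r2, Symbol.nonterminal (NT1.X1 q' r1 r2)]
  | toFin (z : TS T K) (a : Option T) (s1 s2 l1 l2 : Cell T N K) (t : TS T K)
      (h : l1.1 ++ l2.1 = s1.1 ++ s2.1) (ht : 2 ≤ t.1.length) :
      Rule1 P S w0 mS [Symbol.nonterminal (NT1.X1 (Sum.inr (z, a)) s1 s2), cs l1, cs l2]
        (tm t.1 ++ [Symbol.nonterminal (NT1.X2 z a t)])
  | dec (z : TS T K) (a : Option T) (t t' : TS T K) (c : Cell T N K)
      (hc : c.1 = tm t.1) (ht : 1 ≤ t'.1.length) :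
      Rule1 P S w0 mS [Symbol.nonterminal (NT1.X2 z a t), cs c]
        (tm t'.1 ++ [Symbol.nonterminal (NT1.X2 z a t')])
  | fin (z : TS T K) (a : Option T) (t : TS T K) (c : Cell T N K)
      (hc : c.1 = tm t.1) (hz : z.1 ≠ []) (hl : 2 ≤ (out (N := N) (K := K) z.1 a).length) :
      Rule1 P S w0 mS [Symbol.nonterminal (NT1.X2 z a t), cs c] (out z.1 a)
  | float (a : T) : Rule1 P S w0 mS [Symbol.nonterminal (NT1.fl a)] [Symbol.terminal a]

/-- contents of a symbol -/
def cont1 : Symbol T (NT1 T N K) → Str T N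
  | Symbol.terminal t => [Symbol.terminal t]
  | Symbol.nonterminal (NT1.cell c) => c.1
  | _ => []

/-- contents of a string -/
def cont (l : Str T (NT1 T N K)) : Str T N := l.flatMap cont1

@[simp] theorem cont_nil : cont ([] : Str T (NT1 T N K)) = [] := rfl

@[simp] theorem cont_append (a b : Str T (NT1 T N K)) : cont (a ++ b) = cont a ++ cont b := by
  simp [cont]

@[simp] theorem cont_cs (c : Cell T N K) (l : Str T (NT1 T N K)) :
    cont (cs c :: l) = c.1 ++ cont l := by
  simp [cont, cs, cont1]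

@[simp] theorem cont_tm (w : List T) : cont (tm w : Str T (NT1 T N K)) = tm w := by
  induction w with
  | nil => rfl
  | cons a w ih =>
    have : cont (tm (a :: w) : Str T (NT1 T N K)) = [Symbol.terminal a] ++ cont (tm w : Str T (NT1 T N K)) := by
      simp [cont, tm, cont1]
    rw [this, ih]; rfl

/-- meaning of a memory state with tape contents `r` -/
def Good (P : Str T N → Str T N → Prop) (S : N) : Mem T N K → Str T N → Prop
  | Sum.inl none, r => ReflTransGen (JS P) [Symbol.nonterminal S] r
  | Sum.inl (some m), r => ∀ u v, u ++ v = r →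
      ReflTransGen (JS P) [Symbol.nonterminal S] (u ++ m.1 ++ v)
  | Sum.inr (z, none), r => ∀ u v, u ++ v = r →
      ReflTransGen (JS P) [Symbol.nonterminal S] (u ++ tm z.1 ++ v)
  | Sum.inr (z, some a), r => ∀ u v, u ++ v = r → ∀ u' v', u' ++ v' = u ++ tm z.1 ++ v →
      ReflTransGen (JS P) [Symbol.nonterminal S] (u' ++ [Symbol.terminal a] ++ v')

theorem op_sound {P : Str T N → Str T N → Prop} {S : N} {q q' : Mem T N K} {c c' : Str T N}
    (h : Op P q c c' q') (A B : Str T N) (hg : Good P S q (A ++ c ++ B)) :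
    Good P S q' (A ++ c' ++ B) := by
  cases h with
  | reb => exact hg
  | put m => exact hg A B (by simp)
  | pick x y h =>
    intro u v e
    exact ReflTransGen.tail hg (JS.mk h A B u v (by simpa using e.symm))
  | f1 z m hm h =>
    intro u v e
    rw [← hm]
    exact hg u v e
  | f2 z m p q0 B0 a hm hz h hu =>
    intro u v e u' v' e'
    have h1 := hg u v e
    rw [hm] at h1
    have h2 := hu (u ++ tm p) (tm q0 ++ v) u' v' (by rw [e', hz]; simp [tm])
    refine ReflTransGen.trans ?_ h2
    simpa using h1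
  | f3 z m B0 a hm h hu =>
    intro u v e u' v' e'
    simp only [List.append_nil] at e
    rcases List.append_eq_append_iff.1 e with ⟨a', e1, e2⟩ | ⟨c', e1, e2⟩
    · -- u = A before B0 : A = u ++ a', v = a' ++ B
      have h1 := hg u (a' ++ [Symbol.nonterminal B0] ++ B) (by rw [e1]; simp)
      have h2 := hu (u ++ tm z.1 ++ a') B u' v' (by rw [e', e2]; simp)
      refine ReflTransGen.trans ?_ h2
      rw [hm] at h1
      simpa using h1
    · have h1 := hg (A ++ [Symbol.nonterminal B0] ++ c') v (by rw [e2]; simp)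
      have h2 := hu A (c' ++ tm z.1 ++ v) u' v' (by rw [e', e1]; simp)
      refine ReflTransGen.trans ?_ h2
      rw [hm] at h1
      simpa using h1

/-- invariant attached to the control symbol -/
def InvC (P : Str T N → Str T N → Prop) (S : N) :
    NT1 T N K → Str T (NT1 T N K) → Str T (NT1 T N K) → Prop
  | NT1.start, U, V => U = [] ∧ V = []
  | NT1.zed, U, V => cont U = [] ∧ cont V = []
  | NT1.cell _, _, _ => False
  | NT1.X1 q s1 s2, U, V => ∃ u, U = u ++ [cs s1, cs s2] ∧ Good P S q (cont (u ++ V))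
  | NT1.X2 z a t, U, V => ∃ u, U = u ++ tm t.1 ∧ Good P S (Sum.inr (z, a)) (cont (u ++ V))
  | NT1.fl a, U, V => ∃ (u : Str T (NT1 T N K)) (z : TS T K), U = u ++ tm z.1 ∧
      Good (K := K) P S (Sum.inr (z, some a)) (cont (u ++ V))

def Inv1 (P : Str T N → Str T N → Prop) (S : N) (c : Str T (NT1 T N K)) : Prop :=
  (∃ U X V, c = U ++ Symbol.nonterminal X :: V ∧ Free ctl1 U ∧ Free ctl1 V ∧ ctl1 X ∧
    InvC P S X U V) ∨
  (Free ctl1 c ∧ ReflTransGen (JS P) [Symbol.nonterminal S] (cont c))

theorem rule_head {P : Str T N → Str T N → Prop} {S : N} {w0 : ℕ} {mS : Cell T N K}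
    {l r : Str T (NT1 T N K)} (h : Rule1 P S w0 mS l r) :
    ∃ X l', l = Symbol.nonterminal X :: l' ∧ ctl1 X := by
  cases h <;> exact ⟨_, _, rfl, trivial⟩

theorem free_append {u v : Str T (NT1 T N K)} :
    Free ctl1 (u ++ v) ↔ Free ctl1 u ∧ Free ctl1 v := by
  constructor
  · intro h
    exact ⟨fun x hx => h x (by simp [hx]), fun x hx => h x (by simp [hx])⟩
  · rintro ⟨h1, h2⟩ x hx
    rcases List.mem_append.1 hx with hx | hx
    · exact h1 x hx
    · exact h2 x hx

theorem free_tm (w : List T) : Free (ctl1 (T := T) (N := N) (K := K)) (tm w) := by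
  intro x hx
  simp only [tm, List.mem_map] at hx
  obtain ⟨a, _, rfl⟩ := hx
  rintro ⟨A, _, h⟩
  simp at h

theorem free_cs (c : Cell T N K) (l : Str T (NT1 T N K)) (h : Free ctl1 l) :
    Free ctl1 (cs c :: l) := by
  intro x hx
  rcases List.mem_cons.1 hx with rfl | hx
  · rintro ⟨A, hA, h⟩
    simp only [cs, Symbol.nonterminal.injEq] at h
    rw [← h] at hA
    exact hA
  · exact h x hx

theorem free_nil : Free ctl1 ([] : Str T (NT1 T N K)) := by
  intro x hx; simp at hx

theorem inv1_step {P : Str T N → Str T N → Prop} {S : N} {w0 : ℕ} {mS : Cell T N K}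
    (hmS : mS.1 = [Symbol.nonterminal S]) {c d : Str T (NT1 T N K)} (hc : Inv1 P S c)
    (hs : JS (Rule1 P S w0 mS) c d) : Inv1 P S d := by
  obtain ⟨l, r, hR, u, v, u', v', h1, h2, h3⟩ := hs
  obtain ⟨X, l', hl, hX⟩ := rule_head hR
  have hcont : cont u ++ cont v = cont u' ++ cont v' := by
    rw [← cont_append, h3, cont_append]
  rcases hc with ⟨U, Y, V, hc, hU, hV, hY, hI⟩ | ⟨hf, _⟩
  swap
  · exfalso
    refine hf (Symbol.nonterminal X) ?_ ⟨X, hX, rfl⟩
    rw [h1, hl]; simp
  have e' : U ++ Symbol.nonterminal Y :: V = u ++ Symbol.nonterminal X :: (l' ++ v) := by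
    rw [← hc, h1, hl]; simp
  obtain ⟨e1, e2, e3⟩ := uniq (p := fun x => ∃ A, ctl1 A ∧ x = Symbol.nonterminal A)
    hU hV ⟨X, hX, rfl⟩ e'
  simp only [Symbol.nonterminal.injEq] at e2
  subst e1 e2 e3
  have hV' : Free ctl1 v := (free_append.1 hV).2
  have hfr : Free ctl1 (u' ++ v') := by rw [← h3]; exact free_append.2 ⟨hU, hV'⟩
  have hu' := (free_append.1 hfr).1
  have hv' := (free_append.1 hfr).2
  cases hR with
  | short w hw hlt =>
    simp only [List.cons.injEq, Symbol.nonterminal.injEq] at hl
    obtain ⟨rfl, rfl⟩ := hl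
    obtain ⟨hu0, hv0⟩ := hI
    simp only [List.nil_append] at hv0
    subst hu0 hv0
    right
    have h4 : u' = [] ∧ v' = [] := by
      have : u' ++ v' = [] := h3.symm
      simpa using this
    rw [h2, h4.1, h4.2]
    refine ⟨by simpa using free_tm w, ?_⟩
    have hw' : ReflTransGen (JS P) [Symbol.nonterminal S] (tm w) := hw
    simpa using hw'
  | init =>
    simp only [List.cons.injEq, Symbol.nonterminal.injEq] at hl
    obtain ⟨rfl, rfl⟩ := hl
    obtain ⟨hu0, hv0⟩ := hI
    simp only [List.nil_append] at hv0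
    subst hu0 hv0
    have h4 : u' = [] ∧ v' = [] := by
      have : u' ++ v' = [] := h3.symm
      simpa using this
    left
    exact ⟨[], NT1.zed, [], by rw [h2, h4.1, h4.2]; rfl, free_nil, free_nil, trivial, rfl, rfl⟩
  | grow =>
    simp only [List.cons.injEq, Symbol.nonterminal.injEq] at hl
    obtain ⟨rfl, rfl⟩ := hl
    obtain ⟨hu0, hv0⟩ := hI
    simp only [List.nil_append] at hv0
    rw [hu0, hv0] at hcont
    have h4 : cont u' = [] ∧ cont v' = [] := by simpa using hcont.symm
    left
    refine ⟨u' ++ [cs cE], NT1.zed, v', by rw [h2]; simp, ?_, hv', trivial, ?_, h4.2⟩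
    · exact free_append.2 ⟨hu', free_cs _ _ free_nil⟩
    · simp [h4.1, cE]
  | launch s1 s2 =>
    simp only [List.cons.injEq, Symbol.nonterminal.injEq] at hl
    obtain ⟨rfl, rfl⟩ := hl
    obtain ⟨hu0, hv0⟩ := hI
    simp only [List.nil_append] at hv0
    rw [hu0, hv0] at hcont
    have h4 : cont u' = [] ∧ cont v' = [] := by simpa using hcont.symm
    left
    refine ⟨u' ++ [cs s1, cs s2], NT1.X1 (Sum.inl (some mS)) s1 s2, v', by rw [h2]; simp, ?_, hv',
      trivial, u', rfl, ?_⟩
    · exact free_append.2 ⟨hu', free_cs _ _ (free_cs _ _ free_nil)⟩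
    · intro a b e
      simp only [cont_append, h4.1, h4.2, List.append_nil, List.append_eq_nil_iff] at e
      rw [e.1, e.2, hmS]
      exact ReflTransGen.refl
  | op q q' s1 s2 l1 l2 r1 r2 h =>
    simp only [List.cons.injEq, Symbol.nonterminal.injEq] at hl
    obtain ⟨rfl, rfl⟩ := hl
    obtain ⟨u0, hu0, hg⟩ := hI
    subst hu0
    left
    refine ⟨u' ++ [cs r1, cs r2], NT1.X1 q' r1 r2, v', by rw [h2]; simp, ?_, hv', trivial,
      u', rfl, ?_⟩
    · exact free_append.2 ⟨hu', free_cs _ _ (free_cs _ _ free_nil)⟩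
    · have h5 := op_sound (S := S) h (cont u0) (cont v) (by simpa using hg)
      have h6 : cont (u' ++ v') = cont u0 ++ (s1.1 ++ s2.1) ++ cont v := by
        rw [cont_append, ← hcont]; simp
      rw [h6]; exact h5
  | toFin z a s1 s2 l1 l2 t h ht =>
    simp only [List.cons.injEq, Symbol.nonterminal.injEq] at hl
    obtain ⟨rfl, rfl⟩ := hl
    obtain ⟨u0, hu0, hg⟩ := hI
    subst hu0
    left
    refine ⟨u' ++ tm t.1, NT1.X2 z a t, v', by rw [h2]; simp, ?_, hv', trivial, u', rfl, ?_⟩
    · exact free_append.2 ⟨hu', free_tm _⟩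
    · have h6 : cont (u' ++ v') = cont u0 ++ (s1.1 ++ s2.1) ++ cont v := by
        rw [cont_append, ← hcont]; simp
      rw [h6, ← h]
      simpa using hg
  | dec z a t t' c hct ht =>
    simp only [List.cons.injEq, Symbol.nonterminal.injEq] at hl
    obtain ⟨rfl, rfl⟩ := hl
    obtain ⟨u0, hu0, hg⟩ := hI
    subst hu0
    left
    refine ⟨u' ++ tm t'.1, NT1.X2 z a t', v', by rw [h2]; simp, ?_, hv', trivial, u', rfl, ?_⟩
    · exact free_append.2 ⟨hu', free_tm _⟩
    · have h6 : cont (u' ++ v') = cont u0 ++ tm t.1 ++ cont v := by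
        rw [cont_append, ← hcont]; simp
      rw [h6, ← hct]
      simpa using hg
  | fin z a t c hct hz hlen =>
    simp only [List.cons.injEq, Symbol.nonterminal.injEq] at hl
    obtain ⟨rfl, rfl⟩ := hl
    obtain ⟨u0, hu0, hg⟩ := hI
    subst hu0
    have h6 : cont u' ++ cont v' = cont u0 ++ c.1 ++ cont v := by
      rw [← hcont, hct]; simp
    cases a with
    | none =>
      right
      rw [h2]
      refine ⟨free_append.2 ⟨free_append.2 ⟨hu', free_tm _⟩, hv'⟩, ?_⟩
      have := hg (cont u') (cont v') (by rw [h6]; simp)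
      simpa [out] using this
    | some a =>
      left
      refine ⟨u' ++ tm z.1, NT1.fl a, v', by rw [h2]; simp [out], ?_, hv', trivial, u', z, rfl, ?_⟩
      · exact free_append.2 ⟨hu', free_tm _⟩
      · have h7 : cont (u' ++ v') = cont (u0 ++ ([cs c] ++ v)) := by
          rw [cont_append, h6]; simp
        rw [h7]
        exact hg
  | float a =>
    simp only [List.cons.injEq, Symbol.nonterminal.injEq] at hl
    obtain ⟨rfl, rfl⟩ := hl
    obtain ⟨u0, z, hu0, hg⟩ := hI
    subst hu0
    right
    rw [h2]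
    refine ⟨free_append.2 ⟨free_append.2 ⟨hu', free_tm [a]⟩, hv'⟩, ?_⟩
    have := hg (cont u0) (cont v) (by simp) (cont u') (cont v') (by rw [← hcont]; simp)
    have h8 : cont ([Symbol.terminal a] : Str T (NT1 T N K)) = [Symbol.terminal a] := cont_tm [a]
    rw [cont_append, cont_append, h8]
    exact this

theorem sound1 {P : Str T N → Str T N → Prop} {S : N} {w0 : ℕ} {mS : Cell T N K}
    (hmS : mS.1 = [Symbol.nonterminal S]) :
    JL (Rule1 P S w0 mS) NT1.start ⊆ JL P S := by
  intro w hw
  have hw' : ReflTransGen (JS (Rule1 P S w0 mS)) [Symbol.nonterminal NT1.start] (tm w) := hw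
  have : ∀ c, ReflTransGen (JS (Rule1 P S w0 mS)) [Symbol.nonterminal NT1.start] c →
      Inv1 P S c := by
    intro c hc
    induction hc with
    | refl => exact Or.inl ⟨[], NT1.start, [], rfl, free_nil, free_nil, trivial, rfl, rfl⟩
    | tail _ hs ih => exact inv1_step hmS ih hs
  rcases this _ hw' with ⟨U, X, V, hc, _, _, hX, _⟩ | ⟨_, h⟩
  · exfalso
    refine free_tm (K := K) (N := N) w (Symbol.nonterminal X) (by rw [hc]; simp) ⟨X, hX, rfl⟩
  · rw [cont_tm] at h
    exact h

end Machine

end Pool.Agent.Helper309.Jump
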