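import Mathlib
import Pool.Agent.Helper309.Jump2

set_option autoImplicit false

namespace Pool.Agent.Helper309.Jump

open Relation

section Comp

variable {T N : Type} {K : ℕ}

theorem js_length {P : Str T N → Str T N → Prop} (hP : ∀ x y, P x y → x.length ≤ y.length)
    {a b : Str T N} (h : JS P a b) : a.length ≤ b.length := by
  obtain ⟨l, r, hR, u, v, u', v', h1, h2, h3⟩ := h
  have := hP l r hR
  have h4 : u.length + v.length = u'.length + v'.length := by
    simpa using congrArg List.length h3
  rw [h1, h2]
  simp only [List.length_append]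
  omega

theorem reach_length {P : Str T N → Str T N → Prop} (hP : ∀ x y, P x y → x.length ≤ y.length)
    {a b : Str T N} (h : ReflTransGen (JS P) a b) : a.length ≤ b.length := by
  induction h with
  | refl => exact le_refl _
  | tail _ hs ih => exact ih.trans (js_length hP hs)

theorem normal1 {P : Str T N → Str T N → Prop} {S : N} {w0 : ℕ} {mS : Cell T N K}
    (hP : ∀ x y, P x y → x.length ≤ y.length) :
    ∀ l r, Rule1 P S w0 mS l r → Normal ctl1 l r := by
  intro l r h
  cases h with
  | short w hw hlt =>
    refine ⟨⟨NT1.start, [], rfl, trivial, by simp, by simp⟩, ?_, Or.inl (free_tm w)⟩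
    have hw' : ReflTransGen (JS P) [Symbol.nonterminal S] (tm w) := hw
    have := reach_length hP hw'
    simpa [tm] using this
  | init =>
    exact ⟨⟨NT1.start, [], rfl, trivial, by simp, by simp⟩, by simp,
      Or.inr ⟨[], NT1.zed, rfl, trivial, free_nil⟩⟩
  | grow =>
    exact ⟨⟨NT1.zed, [], rfl, trivial, by simp, by simp⟩, by simp,
      Or.inr ⟨[cs cE], NT1.zed, rfl, trivial, free_cs _ _ free_nil⟩⟩
  | launch s1 s2 =>
    exact ⟨⟨NT1.zed, [], rfl, trivial, by simp, by simp⟩, by simp,
      Or.inr ⟨[cs s1, cs s2], NT1.X1 (Sum.inl (some mS)) s1 s2, rfl, trivial,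
        free_cs _ _ (free_cs _ _ free_nil)⟩⟩
  | op q q' s1 s2 l1 l2 r1 r2 h =>
    refine ⟨⟨NT1.X1 q s1 s2, [NT1.cell l1, NT1.cell l2], rfl, trivial, ?_, by simp⟩, by simp,
      Or.inr ⟨[cs r1, cs r2], NT1.X1 q' r1 r2, rfl, trivial,
        free_cs _ _ (free_cs _ _ free_nil)⟩⟩
    intro A hA
    simp only [List.mem_cons, List.not_mem_nil, or_false] at hA
    rcases hA with rfl | rfl <;> exact id
  | toFin z a s1 s2 l1 l2 t h ht =>
    refine ⟨⟨NT1.X1 (Sum.inr (z, a)) s1 s2, [NT1.cell l1, NT1.cell l2], rfl, trivial, ?_,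
      by simp⟩, ?_, Or.inr ⟨tm t.1, NT1.X2 z a t, rfl, trivial, free_tm _⟩⟩
    · intro A hA
      simp only [List.mem_cons, List.not_mem_nil, or_false] at hA
      rcases hA with rfl | rfl <;> exact id
    · simp [tm]; omega
  | dec z a t t' c hct ht =>
    refine ⟨⟨NT1.X2 z a t, [NT1.cell c], rfl, trivial, ?_,
      by simp⟩, ?_, Or.inr ⟨tm t'.1, NT1.X2 z a t', rfl, trivial, free_tm _⟩⟩
    · intro A hA
      simp only [List.mem_cons, List.not_mem_nil, or_false] at hA
      rcases hA with rfl; exact id
    · simp [tm]; omega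
  | fin z a t c hct hz hlen =>
    refine ⟨⟨NT1.X2 z a t, [NT1.cell c], rfl, trivial, ?_, by simp⟩, by simpa using hlen, ?_⟩
    · intro A hA
      simp only [List.mem_cons, List.not_mem_nil, or_false] at hA
      rcases hA with rfl; exact id
    · cases a with
      | none => exact Or.inl (free_tm _)
      | some a => exact Or.inr ⟨tm z.1, NT1.fl a, rfl, trivial, free_tm _⟩
  | float a =>
    exact ⟨⟨NT1.fl a, [], rfl, trivial, by simp, by simp⟩, by simp, Or.inl (free_tm [a])⟩

/-- all rules have bounded length -/
theorem bound1 {P : Str T N → Str T N → Prop} {S : N} {w0 : ℕ} {mS : Cell T N K} :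
    ∀ l r, Rule1 P S w0 mS l r → l.length ≤ w0 + K + 3 ∧ r.length ≤ w0 + K + 3 := by
  intro l r h
  cases h with
  | short w hw hlt => simp [tm]; omega
  | init => simp
  | grow => simp
  | launch s1 s2 => simp
  | op q q' s1 s2 l1 l2 r1 r2 h => simp
  | toFin z a s1 s2 l1 l2 t h ht =>
    have := t.2
    simp [tm]; omega
  | dec z a t t' c hct ht =>
    have := t'.2
    simp [tm]; omega
  | fin z a t c hct hz hlen =>
    have := z.2
    cases a with
    | none => simp [out, tm]; omega
    | some a => simp [out, tm]; omega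
  | float a => constructor <;> simp

variable (P : Str T N → Str T N → Prop) (S : N) (w0 : ℕ) (mS : Cell T N K)

/-- reachable in the simulating grammar -/
def Reach1 (c : Str T (NT1 T N K)) : Prop :=
  ReflTransGen (JS (Rule1 P S w0 mS)) [Symbol.nonterminal NT1.start] c

variable {P S w0 mS}

theorem Reach1.step {l r : Str T (NT1 T N K)} {u v : Str T (NT1 T N K)}
    (h : Reach1 P S w0 mS (u ++ l ++ v)) (hR : Rule1 P S w0 mS l r)
    (u' v' : Str T (NT1 T N K)) (e : u' ++ v' = u ++ v) :
    Reach1 P S w0 mS (u' ++ r ++ v') :=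
  ReflTransGen.tail h (JS.mk hR u v u' v' e.symm)

theorem reach_zed (n : ℕ) :
    Reach1 P S w0 mS (List.replicate n (cs cE) ++ [Symbol.nonterminal NT1.zed]) := by
  induction n with
  | zero =>
    have h0 : Reach1 P S w0 mS ([] ++ [Symbol.nonterminal NT1.start] ++ []) := ReflTransGen.refl
    exact h0.step Rule1.init [] [] rfl
  | succ n ih =>
    have h0 : Reach1 P S w0 mS (List.replicate n (cs cE) ++ [Symbol.nonterminal NT1.zed] ++ []) := by
      simpa using ih
    have := h0.step Rule1.grow (List.replicate n (cs cE)) [] rfl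
    simpa [List.replicate_succ', List.append_assoc] using this

variable (P S w0 mS)

/-- all configurations with memory `q`, tape `L` are reachable -/
def Ready (q : Mem T N K) (L : List (Cell T N K)) : Prop :=
  ∀ (s1 s2 : Cell T N K) (u v : Str T (NT1 T N K)), u ++ v = L.map cs →
    Reach1 P S w0 mS (u ++ [cs s1, cs s2, Symbol.nonterminal (NT1.X1 q s1 s2)] ++ v)

variable {P S w0 mS}

theorem ready_init (n : ℕ) : Ready P S w0 mS (Sum.inl (some mS)) (List.replicate n cE) := by
  intro s1 s2 u v e
  have h0 := reach_zed (P := P) (S := S) (w0 := w0) (mS := mS) n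
  have h1 : Reach1 P S w0 mS (List.replicate n (cs cE) ++ [Symbol.nonterminal NT1.zed] ++ []) := by
    simpa using h0
  exact h1.step (Rule1.launch s1 s2) u v (by rw [e]; simp)

theorem ready_op {q q' : Mem T N K} {A B : List (Cell T N K)} {l1 l2 s1 s2 : Cell T N K}
    (h : Ready P S w0 mS q (A ++ [l1, l2] ++ B)) (hop : Op P q (l1.1 ++ l2.1) (s1.1 ++ s2.1) q') :
    Ready P S w0 mS q' (A ++ [s1, s2] ++ B) := by
  intro r1 r2 u v e
  have h0 := h s1 s2 (A.map cs) (([l1, l2] ++ B).map cs) (by simp)
  have h1 : Reach1 P S w0 mS ((A.map cs ++ [cs s1, cs s2]) ++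
      [Symbol.nonterminal (NT1.X1 q s1 s2), cs l1, cs l2] ++ B.map cs) := by
    simpa using h0
  exact h1.step (Rule1.op q q' s1 s2 l1 l2 r1 r2 hop) u v (by rw [e]; simp)

/-- contents of a tape -/
def cc (L : List (Cell T N K)) : Str T N := L.flatMap Subtype.val

@[simp] theorem cc_nil : cc ([] : List (Cell T N K)) = [] := rfl
@[simp] theorem cc_cons (c : Cell T N K) (L : List (Cell T N K)) : cc (c :: L) = c.1 ++ cc L := by
  simp [cc]
@[simp] theorem cc_append (A B : List (Cell T N K)) : cc (A ++ B) = cc A ++ cc B := by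
  simp [cc]

theorem cc_length (L : List (Cell T N K)) : (cc L).length ≤ L.length * K := by
  induction L with
  | nil => simp
  | cons c L ih =>
    have := c.2
    simp only [cc_cons, List.length_append, List.length_cons]
    nlinarith

/-- equivalence of tape pieces -/
def Eqv (P : Str T N → Str T N → Prop) (S : N) (w0 : ℕ) (mS : Cell T N K)
    (L L' : List (Cell T N K)) : Prop :=
  ∀ (A B : List (Cell T N K)) (q : Mem T N K),
    Ready P S w0 mS q (A ++ L ++ B) ↔ Ready P S w0 mS q (A ++ L' ++ B)

theorem Eqv.refl (L : List (Cell T N K)) : Eqv P S w0 mS L L := fun _ _ _ => Iff.rfl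

theorem Eqv.symm {L L' : List (Cell T N K)} (h : Eqv P S w0 mS L L') : Eqv P S w0 mS L' L :=
  fun A B q => (h A B q).symm

theorem Eqv.trans {L L' L'' : List (Cell T N K)} (h : Eqv P S w0 mS L L')
    (h' : Eqv P S w0 mS L' L'') : Eqv P S w0 mS L L'' :=
  fun A B q => (h A B q).trans (h' A B q)

theorem Eqv.congr {L L' : List (Cell T N K)} (h : Eqv P S w0 mS L L')
    (C D : List (Cell T N K)) : Eqv P S w0 mS (C ++ L ++ D) (C ++ L' ++ D) := by
  intro A B q
  have := h (A ++ C) (D ++ B) q
  simpa using this

theorem Eqv.pair {l1 l2 s1 s2 : Cell T N K} (h : l1.1 ++ l2.1 = s1.1 ++ s2.1) :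
    Eqv P S w0 mS [l1, l2] [s1, s2] := by
  intro A B q
  constructor
  · intro hr
    exact ready_op hr (by rw [h]; exact Op.reb q _)
  · intro hr
    exact ready_op hr (by rw [h]; exact Op.reb q _)

/-- packed arrangement -/
def pack (K : ℕ) : ℕ → Str T N → List (Cell T N K)
  | 0, _ => []
  | n + 1, c => ⟨c.take K, by simp⟩ :: pack K n (c.drop K)

theorem pack_length (n : ℕ) (c : Str T N) : (pack K n c).length = n := by
  induction n generalizing c with
  | zero => rfl
  | succ n ih => simp [pack, ih]

theorem cc_pack (n : ℕ) (c : Str T N) (h : c.length ≤ n * K) : cc (pack K n c) = c := by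
  induction n generalizing c with
  | zero =>
    have : c = [] := by
      apply List.eq_nil_of_length_eq_zero; omega
    rw [this]; rfl
  | succ n ih =>
    simp only [pack, cc_cons]
    rw [ih _ (by simp only [List.length_drop]; rw [Nat.succ_mul] at h; omega)]
    exact List.take_append_drop K c

theorem eqv_pack (n : ℕ) : ∀ (L : List (Cell T N K)), L.length = n →
    Eqv P S w0 mS L (pack K n (cc L)) := by
  induction n with
  | zero =>
    intro L hL
    have : L = [] := List.eq_nil_of_length_eq_zero hL
    rw [this]; exact Eqv.refl _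
  | succ n ih =>
    intro L hL
    match L, hL with
    | σ :: L', hL =>
      have hL' : L'.length = n := by simpa using hL
      have h1 : Eqv P S w0 mS (σ :: L') (σ :: pack K n (cc L')) := by
        simpa using (ih L' hL').congr [σ] []
      refine h1.trans ?_
      match n, ih, hL', h1 with
      | 0, _, hL', _ =>
        have : L' = [] := List.eq_nil_of_length_eq_zero hL'
        subst this
        have e : (⟨(cc [σ]).take K, by simp⟩ : Cell T N K) = σ := by
          apply Subtype.ext
          simp [List.take_of_length_le σ.2]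
        simp only [pack]
        rw [e]
        exact Eqv.refl _
      | m + 1, ih, hL', _ =>
        have hlen : (cc L').length ≤ (m + 1) * K := by
          have := cc_length L'
          rw [hL'] at this
          exact this
        have hσ := σ.2
        -- rebalance the first two cells
        let τ : Cell T N K := ⟨(cc L').take K, by simp⟩
        have hτ := τ.2
        let σ' : Cell T N K := ⟨(cc (σ :: L')).take K, by simp⟩
        let τ' : Cell T N K := ⟨(σ.1 ++ τ.1).drop K, by
          simp only [List.length_drop, List.length_append]; omega⟩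
        have eσ' : σ'.1 = (σ.1 ++ τ.1).take K := by
          change (cc (σ :: L')).take K = (σ.1 ++ (cc L').take K).take K
          rw [cc_cons, List.take_append, List.take_append, List.take_take]
          congr 1
          congr 1
          omega
        have hpair : σ.1 ++ τ.1 = σ'.1 ++ τ'.1 := by
          rw [eσ']
          exact (List.take_append_drop K _).symm
        have h2 : Eqv P S w0 mS (σ :: pack K (m + 1) (cc L'))
            (σ' :: τ' :: pack K m ((cc L').drop K)) := by
          have := (Eqv.pair (P := P) (S := S) (w0 := w0) (mS := mS) hpair).congr []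
            (pack K m ((cc L').drop K))
          simpa [pack] using this
        refine h2.trans ?_
        have h3 := ih (τ' :: pack K m ((cc L').drop K)) (by simp [pack_length])
        have h4 : cc (τ' :: pack K m ((cc L').drop K)) = (cc (σ :: L')).drop K := by
          have e1 : cc (pack K (m + 1) (cc L')) = cc L' := cc_pack _ _ hlen
          simp only [pack, cc_cons] at e1
          have e2 : σ'.1 ++ cc (τ' :: pack K m ((cc L').drop K)) =
              σ'.1 ++ (cc (σ :: L')).drop K := by
            have e3 : σ'.1 ++ (cc (σ :: L')).drop K = cc (σ :: L') :=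
              List.take_append_drop K _
            rw [e3, cc_cons, ← List.append_assoc, ← hpair, cc_cons, List.append_assoc]
            congr 1
          exact List.append_cancel_left e2
        rw [h4] at h3
        have h5 := h3.congr [σ'] []
        rw [List.append_nil, List.append_nil] at h5
        exact h5

theorem eqv_of_cc {L L' : List (Cell T N K)} (h1 : L.length = L'.length) (h2 : cc L = cc L') :
    Eqv P S w0 mS L L' := by
  have a := eqv_pack (P := P) (S := S) (w0 := w0) (mS := mS) L.length L rfl
  have b := eqv_pack (P := P) (S := S) (w0 := w0) (mS := mS) L'.length L' rfl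
  rw [h1, h2] at a
  exact a.trans b.symm

variable (P S w0 mS)

/-- memory `q` with every arrangement of `r` in `n` cells is reachable -/
def RT (n : ℕ) (q : Mem T N K) (r : Str T N) : Prop :=
  ∀ L : List (Cell T N K), L.length = n → cc L = r → Ready P S w0 mS q L

variable {P S w0 mS}

theorem RT.of_ready {n : ℕ} {q : Mem T N K} {L : List (Cell T N K)} (hL : L.length = n)
    (h : Ready P S w0 mS q L) : RT P S w0 mS n q (cc L) := by
  intro L' hL' e
  have := (eqv_of_cc (P := P) (S := S) (w0 := w0) (mS := mS) (L := L) (L' := L')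
    (by omega) e.symm) [] [] q
  simpa using this.1 (by simpa using h)

theorem RT.op {n : ℕ} {q q' : Mem T N K} {x y u v : Str T N} (hx : x.length ≤ K)
    (hy : y.length ≤ K) (hop : Op P q x y q') (hn : u.length + v.length + 3 * K ≤ n * K)
    (hK : 0 < K) (h : RT P S w0 mS n q (u ++ x ++ v)) :
    RT P S w0 mS n q' (u ++ y ++ v) := by
  -- number of cells for u
  let n1 := u.length / K + 1
  have h1 : u.length ≤ n1 * K := by
    have := Nat.lt_div_mul_add hK (a := u.length)
    simp only [n1, Nat.succ_mul]; omega
  have h1' : n1 * K ≤ u.length + K := by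
    have := Nat.div_mul_le_self u.length K
    simp only [n1, Nat.succ_mul]; omega
  have h2 : n1 + 2 ≤ n := by
    by_contra hcon
    have : n ≤ n1 + 1 := by omega
    have := Nat.mul_le_mul_right K this
    rw [Nat.succ_mul] at this
    omega
  obtain ⟨n2, rfl⟩ : ∃ n2, n = n1 + 2 + n2 := ⟨n - (n1 + 2), by omega⟩
  have h3 : v.length ≤ n2 * K := by
    have : (n1 + 2 + n2) * K = n1 * K + 2 * K + n2 * K := by ring
    omega
  let cx : Cell T N K := ⟨x, hx⟩
  let cy : Cell T N K := ⟨y, hy⟩
  have hr : Ready P S w0 mS q (pack K n1 u ++ [cx, cE] ++ pack K n2 v) := by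
    apply h
    · simp only [List.length_append, pack_length, List.length_cons, List.length_nil]
    · simp only [cc_append, cc_pack n1 u h1, cc_pack n2 v h3, cc_cons, cc_nil, cx, cE,
        List.append_nil]
  have hr' : Ready P S w0 mS q' (pack K n1 u ++ [cy, cE] ++ pack K n2 v) :=
    ready_op hr (by simpa [cx, cy, cE] using hop)
  have := RT.of_ready (n := n1 + 2 + n2) (by
    simp only [List.length_append, pack_length, List.length_cons, List.length_nil]) hr'
  simpa only [cc_append, cc_pack n1 u h1, cc_pack n2 v h3, cc_cons, cc_nil, cy, cE,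
        List.append_nil] using this

/-- simulation of the source grammar -/
theorem sim_main (hP : ∀ x y, P x y → x.length ≤ y.length) (hPK : ∀ x y, P x y → y.length ≤ K)
    (hmS : mS.1 = [Symbol.nonterminal S]) (hK : 0 < K) {n : ℕ} {c : Str T N}
    (h : ReflTransGen (JS P) [Symbol.nonterminal S] c) (hn : c.length + 3 * K ≤ n * K) :
    RT P S w0 mS n (Sum.inl none) c := by
  induction h with
  | refl =>
    have h0 := RT.of_ready (n := n) (by simp)
      (ready_init (P := P) (S := S) (w0 := w0) (mS := mS) n)
    have e : cc (List.replicate n (cE : Cell T N K)) = [] := by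
      clear h0 hn
      induction n with
      | zero => rfl
      | succ n ih => rw [List.replicate_succ, cc_cons, ih]; rfl
    rw [e] at h0
    have := RT.op (u := []) (v := []) (x := []) (y := mS.1) (by simp) mS.2 (Op.put mS)
      (by simp at hn ⊢; omega) hK h0
    rw [hmS] at this
    exact this
  | tail hab hs ih =>
    have hlen := js_length hP hs
    obtain ⟨x, y, hR, u, v, u', v', h1, h2, h3⟩ := hs
    have ih' := ih (by omega)
    rw [h1] at ih'
    have hxy := hP x y hR
    have hy := hPK x y hR
    have e4 : u.length + v.length = u'.length + v'.length := by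
      simpa using congrArg List.length h3
    have hn' : u'.length + y.length + v'.length + 3 * K ≤ n * K := by
      rw [h2] at hn; simpa [add_assoc] using hn
    have s1 := RT.op (u := u) (v := v) (x := x) (y := []) (by omega) (by simp)
      (Op.pick x ⟨y, hy⟩ hR) (by omega) hK ih'
    have e5 : u ++ [] ++ v = u' ++ [] ++ v' := by simpa using h3
    rw [e5] at s1
    have s2 := RT.op (u := u') (v := v') (x := []) (y := y) (by simp) hy
      (Op.put ⟨y, hy⟩) (by omega) hK s1
    rw [h2]
    exact s2

/-- memory holding a right-hand side -/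
theorem sim_mem (hP : ∀ x y, P x y → x.length ≤ y.length) (hPK : ∀ x y, P x y → y.length ≤ K)
    (hmS : mS.1 = [Symbol.nonterminal S]) (hK : 0 < K) {n : ℕ} {u v x : Str T N}
    {y : Cell T N K} (hR : P x y.1)
    (h : ReflTransGen (JS P) [Symbol.nonterminal S] (u ++ x ++ v))
    (hn : (u ++ x ++ v).length + 3 * K ≤ n * K) :
    RT P S w0 mS n (Sum.inl (some y)) (u ++ v) := by
  have h0 := sim_main (w0 := w0) hP hPK hmS hK h hn
  have hxy := hP x y.1 hR
  have hy := y.2
  have := RT.op (u := u) (v := v) (x := x) (y := []) (by omega) (by simp)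
      (Op.pick x y hR) (by simp at hn; omega) hK h0
  simpa using this

/-- cell of a terminal string -/
def tc (t : TS T K) : Cell T N K := ⟨tm t.1, by simpa [tm] using t.2⟩

/-- letters of a list of terminal strings -/
def ll (L : List (TS T K)) : List T := L.flatMap Subtype.val

@[simp] theorem ll_nil : ll ([] : List (TS T K)) = [] := rfl
@[simp] theorem ll_cons (c : TS T K) (L : List (TS T K)) : ll (c :: L) = c.1 ++ ll L := by
  simp [ll]
@[simp] theorem ll_append (A B : List (TS T K)) : ll (A ++ B) = ll A ++ ll B := by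
  simp [ll]

@[simp] theorem tm_append {M : Type} (a b : List T) : (tm (a ++ b) : Str T M) = tm a ++ tm b := by
  simp [tm]

@[simp] theorem tm_nil {M : Type} : (tm ([] : List T) : Str T M) = [] := rfl

theorem cc_tc (L : List (TS T K)) : cc (L.map (tc (N := N))) = tm (ll L) := by
  induction L with
  | nil => rfl
  | cons c L ih => simp [ih, tc]

theorem chunks (hK : 3 ≤ K) : ∀ (n : ℕ) (r : List T), 2 * n ≤ r.length → r.length ≤ 3 * n →
    ∃ L : List (TS T K), L.length = n ∧ ll L = r ∧ ∀ t ∈ L, 2 ≤ t.1.length := by
  intro n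
  induction n with
  | zero =>
    intro r _ h
    have : r = [] := List.eq_nil_of_length_eq_zero (by omega)
    exact ⟨[], rfl, by rw [this]; rfl, by simp⟩
  | succ n ih =>
    intro r h1 h2
    by_cases hc : 2 * n + 3 ≤ r.length
    · obtain ⟨L, hL1, hL2, hL3⟩ := ih (r.drop 3) (by simp; omega) (by simp; omega)
      have hl : (r.take 3).length = 3 := by simp; omega
      refine ⟨⟨r.take 3, by omega⟩ :: L, by simp [hL1], by simp [hL2], ?_⟩
      intro t ht
      rcases List.mem_cons.1 ht with rfl | ht
      · change 2 ≤ (r.take 3).length; omega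
      · exact hL3 t ht
    · obtain ⟨L, hL1, hL2, hL3⟩ := ih (r.drop 2) (by simp; omega) (by simp; omega)
      have hl : (r.take 2).length = 2 := by simp; omega
      refine ⟨⟨r.take 2, by omega⟩ :: L, by simp [hL1], by simp [hL2], ?_⟩
      intro t ht
      rcases List.mem_cons.1 ht with rfl | ht
      · change 2 ≤ (r.take 2).length; omega
      · exact hL3 t ht

/-- phase 2 -/
theorem phase2 {z : TS T K} {a : Option T} : ∀ (D A : List (TS T K)),
    (∀ t ∈ D, 2 ≤ t.1.length) → D ≠ [] → z.1 ≠ [] →
    2 ≤ (out (N := N) (K := K) z.1 a).length →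
    (∀ (t : TS T K) (u v : Str T (NT1 T N K)), 2 ≤ t.1.length →
      u ++ v = tm (ll A) ++ (D.map (tc (N := N))).map cs →
      Reach1 P S w0 mS (u ++ (tm t.1 ++ [Symbol.nonterminal (NT1.X2 z a t)]) ++ v)) →
    ∀ (u v : Str T (NT1 T N K)), u ++ v = tm (ll (A ++ D)) →
      Reach1 P S w0 mS (u ++ out z.1 a ++ v) := by
  intro D
  induction D with
  | nil => intro A _ h; exact absurd rfl h
  | cons d D ih =>
    intro A hD _ hz hout hready u v e
    have hd : 2 ≤ d.1.length := hD d (by simp)
    have h0 := hready d (tm (ll A)) ((tc (N := N) d :: D.map (tc (N := N))).map cs) hd rfl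
    have h1 : Reach1 P S w0 mS ((tm (ll A) ++ tm d.1) ++
        [Symbol.nonterminal (NT1.X2 z a d), cs (tc (N := N) d)] ++ (D.map (tc (N := N))).map cs) := by
      simpa using h0
    by_cases hDn : D = []
    · subst hDn
      exact h1.step (Rule1.fin z a d (tc d) rfl hz hout) u v (by rw [e]; simp)
    · refine ih (A ++ [d]) (fun t ht => hD t (by simp [ht])) hDn hz hout ?_ u v (by rw [e]; simp)
      intro t u' v' ht e'
      exact h1.step (Rule1.dec z a d t (tc d) rfl (by omega)) u' v' (by rw [e']; simp)

theorem final_stage {z : TS T K} {a : Option T} {n : ℕ} {r : List T} (hK : 3 ≤ K)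
    (h : RT P S w0 mS n (Sum.inr (z, a)) (tm r : Str T N)) (hn : 2 ≤ n) (h1 : 2 * n ≤ r.length)
    (h2 : r.length ≤ 3 * n) (hz : z.1 ≠ []) (hout : 2 ≤ (out (N := N) (K := K) z.1 a).length)
    (u v : Str T (NT1 T N K)) (e : u ++ v = tm r) :
    Reach1 P S w0 mS (u ++ out z.1 a ++ v) := by
  obtain ⟨L, hL1, hL2, hL3⟩ := chunks hK n r h1 h2
  have hr : Ready P S w0 mS (Sum.inr (z, a)) (L.map (tc (N := N))) :=
    h _ (by simp [hL1]) (by rw [cc_tc, hL2])
  match L, hL1, hL2, hL3, hr with
  | [], hL1, _, _, _ => simp at hL1; omega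
  | [_], hL1, _, _, _ => simp at hL1; omega
  | t1 :: t2 :: L', hL1, hL2, hL3, hr =>
    refine phase2 (t1 :: t2 :: L') [] hL3 (by simp) hz hout ?_ u v (by simpa [hL2] using e)
    intro t u' v' ht e'
    have h3 := hr (tc t1) (tc t2) [] _ rfl
    have h4 : Reach1 P S w0 mS ([cs (tc t1), cs (tc t2)] ++
        [Symbol.nonterminal (NT1.X1 (Sum.inr (z, a)) (tc t1) (tc t2)), cs (tc t1), cs (tc t2)] ++
        (L'.map (tc (N := N))).map cs) := by
      simpa using h3
    exact h4.step (Rule1.toFin z a (tc t1) (tc t2) (tc t1) (tc t2) t rfl ht) u' v'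
      (by rw [e']; simp)

end Comp

end Pool.Agent.Helper309.Jump
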