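import Mathlib
import Pool.Agent.Helper309.Jump3

set_option autoImplicit false

namespace Pool.Agent.Helper309.Jump

open Relation

section Cls

variable {T N : Type}

theorem tm_inj {M : Type} {a b : List T} (h : (tm a : Str T M) = tm b) : a = b := by
  have : Function.Injective (Symbol.terminal : T → Symbol T M) := by
    intro x y h; simpa using h
  exact (List.map_injective_iff.2 this) h

theorem tm_split {M : Type} {w : List T} {a b : Str T M} (h : (tm w : Str T M) = a ++ b) :
    ∃ a' b', w = a' ++ b' ∧ a = tm a' ∧ b = tm b' := by
  unfold tm at h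
  rw [List.map_eq_append_iff] at h
  obtain ⟨a', b', h1, h2, h3⟩ := h
  exact ⟨a', b', h1, h2.symm, h3.symm⟩

theorem nt_not_mem_tm {M : Type} (B : M) (w : List T) : (Symbol.nonterminal B : Symbol T M) ∉ (tm w : Str T M) := by
  simp [tm]

/-- how a word of length at least two is finished -/
inductive Cls (P : Str T N → Str T N → Prop) (S : N) (w : List T) : Prop
  | c1 (z r u v : List T) (x U V : Str T N) (hz : 2 ≤ z.length) (hR : P x (tm z))
      (h : ReflTransGen (JS P) [Symbol.nonterminal S] (U ++ x ++ V)) (e1 : U ++ V = tm r)
      (e2 : u ++ v = r) (e3 : w = u ++ z ++ v)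
  | c2 (p q r u v u' v' : List T) (B : N) (a : T) (x U V : Str T N) (hz : p ++ q ≠ [])
      (hU : UnitTo P B a) (hR : P x (tm p ++ [Symbol.nonterminal B] ++ tm q))
      (h : ReflTransGen (JS P) [Symbol.nonterminal S] (U ++ x ++ V)) (e1 : U ++ V = tm r)
      (e2 : u ++ v = r) (e3 : u' ++ v' = u ++ (p ++ q) ++ v) (e4 : w = u' ++ [a] ++ v')
  | c3 (z r1 r2 u v u' v' : List T) (B : N) (a : T) (x U V : Str T N) (hz : z ≠ [])
      (hU : UnitTo P B a) (hR : P x (tm z))
      (h : ReflTransGen (JS P) [Symbol.nonterminal S] (U ++ x ++ V))
      (e1 : U ++ V = tm r1 ++ [Symbol.nonterminal B] ++ tm r2)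
      (e2 : u ++ v = r1 ++ r2) (e3 : u' ++ v' = u ++ z ++ v) (e4 : w = u' ++ [a] ++ v')

theorem unit_rule {P : Str T N → Str T N → Prop} {B : N} {a : T}
    (h : P [Symbol.nonterminal B] [Symbol.terminal a]) : UnitTo P B a := by
  intro u v u' v' e
  exact ReflTransGen.single (JS.mk h u v u' v' e)

theorem unit_chain {P : Str T N → Str T N → Prop} {B C : N} {a : T}
    (h : P [Symbol.nonterminal B] [Symbol.nonterminal C]) (hC : UnitTo P C a) : UnitTo P B a := by
  intro u v u' v' e
  exact ReflTransGen.head (JS.mk h u v u v rfl) (hC u v u' v' e)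

theorem cls_sub {P : Str T N → Str T N → Prop} {S : N}
    (hP : ∀ x y, P x y → x.length ≤ y.length) (hN : ∀ x y, P x y → ∃ A, Symbol.nonterminal A ∈ x)
    {c : Str T N} (h : ReflTransGen (JS P) [Symbol.nonterminal S] c) :
    ∀ (B : N) (a : T) (u v : List T), c = tm u ++ [Symbol.nonterminal B] ++ tm v → u ++ v ≠ [] →
      UnitTo P B a → ∀ u' v', u' ++ v' = u ++ v → Cls P S (u' ++ [a] ++ v') := by
  induction h with
  | refl =>
    intro B a u v e hne
    exfalso
    have := congrArg List.length e
    simp [tm] at this
    apply hne
    have h1 : u.length = 0 := by omega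
    have h2 : v.length = 0 := by omega
    rw [List.eq_nil_of_length_eq_zero h1, List.eq_nil_of_length_eq_zero h2]; rfl
  | tail hab hs ih =>
    intro B a u v e hne hU u' v' e'
    obtain ⟨x, y, hR, u0, v0, u1, v1, h1, h2, h3⟩ := hs
    rw [h1] at hab
    have hxy := hP x y hR
    obtain ⟨A, hA⟩ := hN x y hR
    have hx0 : 0 < x.length := List.length_pos_of_mem hA
    rw [h2] at e
    -- locate B in u1 ++ y ++ v1 
    have e0 : u1 ++ (y ++ v1) = tm u ++ (Symbol.nonterminal B :: tm v) := by
      simpa using e
    rcases List.append_eq_append_iff.1 e0 with ⟨p', f1, f2⟩ | ⟨s', f1, f2⟩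
    · -- tm u = u1 ++ p', y ++ v1 = p' ++ B :: tm v
      obtain ⟨ut, p, g1, g2, g3⟩ := tm_split f1
      rcases List.append_eq_append_iff.1 f2 with ⟨m', k1, k2⟩ | ⟨m', k1, k2⟩
      · -- p' = y ++ m', v1 = m' ++ B :: tm v
        rw [g3] at k1
        obtain ⟨z, m, g4, g5, g6⟩ := tm_split k1
        refine Cls.c3 z (ut ++ m) v (ut) (m ++ v) u' v' B a x u0 v0 ?_ hU (g5 ▸ hR) hab ?_ ?_ ?_ rfl
        · intro hz
          rw [g5, hz] at hxy
          simp at hxy
          simp [hxy] at hx0
        · rw [h3, k2, g2, g6]; simp
        · simp
        · rw [e', g1, g4]; simp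
      · -- y = p' ++ m', B :: tm v = m' ++ v1
        cases m' with
        | nil =>
          -- y = p' terminal, v1 = B :: tm v
          simp only [List.append_nil] at k1
          simp only [List.nil_append] at k2
          rw [g3] at k1
          refine Cls.c3 p ut v ut v u' v' B a x u0 v0 ?_ hU (k1 ▸ hR) hab ?_ rfl ?_ rfl
          · intro hz
            rw [k1, hz] at hxy
            simp at hxy
            simp [hxy] at hx0
          · rw [h3, ← k2, g2]; simp
          · rw [e', g1]
        | cons b m' =>
          simp only [List.cons_append, List.cons.injEq] at k2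
          obtain ⟨rfl, k3⟩ := k2
          obtain ⟨q, vt, g4, g5, g6⟩ := tm_split k3
          rw [g3, g5] at k1
          by_cases hpq : p ++ q = []
          · -- unit rule
            have hp : p = [] := (List.append_eq_nil_iff.1 hpq).1
            have hq : q = [] := (List.append_eq_nil_iff.1 hpq).2
            subst hp hq
            simp only [tm_nil, List.nil_append] at k1
            have hx1 : x = [Symbol.nonterminal A] := by
              rw [k1] at hxy
              simp only [List.length_cons, List.length_nil, zero_add] at hxy
              have : x.length = 1 := by omega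
              obtain ⟨b, hb⟩ := List.length_eq_one_iff.1 this
              rw [hb] at hA ⊢
              simp at hA
              rw [hA]
            rw [k1, hx1] at hR
            have hUA := unit_chain hR hU
            have h4 : tm (ut ++ vt) = u0 ++ v0 := by rw [h3, g2, g6]; simp
            obtain ⟨ua, va, g7, g8, g9⟩ := tm_split h4
            refine ih A a ua va (by rw [h1, hx1, g8, g9]) ?_ hUA u' v' ?_
            · rw [← g7]
              simpa [g1, g4] using hne
            · rw [e', ← g7, g1, g4]; simp
          · refine Cls.c2 p q (ut ++ vt) ut vt u' v' B a x u0 v0 hpq hU ?_ hab ?_ rfl ?_ rfl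
            · rw [k1] at hR
              simpa using hR
            · rw [h3, g2, g6]; simp
            · rw [e', g1, g4]; simp
    · -- u1 = tm u ++ s', B :: tm v = s' ++ (y ++ v1)
      cases s' with
      | nil =>
        -- u1 = tm u, y ++ v1 = B :: tm v
        simp only [List.append_nil] at f1
        simp only [List.nil_append] at f2
        cases y with
        | nil =>
          simp at hxy
          simp [hxy] at hx0
        | cons b y' =>
          simp only [List.cons_append, List.cons.injEq] at f2
          obtain ⟨rfl, k3⟩ := f2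
          obtain ⟨q, vt, g4, g5, g6⟩ := tm_split k3
          by_cases hq : q = []
          · subst hq
            simp only [tm_nil] at g5
            subst g5
            have hx1 : x = [Symbol.nonterminal A] := by
              simp only [List.length_cons, List.length_nil, zero_add] at hxy
              have : x.length = 1 := by omega
              obtain ⟨b, hb⟩ := List.length_eq_one_iff.1 this
              rw [hb] at hA ⊢
              simp at hA
              rw [hA]
            rw [hx1] at hR
            have hUA := unit_chain hR hU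
            have h4 : tm (u ++ vt) = u0 ++ v0 := by rw [h3, f1, g6]; simp
            obtain ⟨ua, va, g7, g8, g9⟩ := tm_split h4
            refine ih A a ua va (by rw [h1, hx1, g8, g9]) ?_ hUA u' v' ?_
            · rw [← g7]
              simpa [g4] using hne
            · rw [e', ← g7, g4]; simp
          · refine Cls.c2 [] q (u ++ vt) u vt u' v' B a x u0 v0 (by simpa using hq) hU ?_ hab ?_ rfl
              ?_ rfl
            · rw [g5] at hR
              simpa using hR
            · rw [h3, f1, g6]; simp
            · rw [e', g4]; simp
      | cons b s' =>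
        simp only [List.cons_append, List.cons.injEq] at f2
        obtain ⟨rfl, k3⟩ := f2
        obtain ⟨s, rest, g4, g5, g6⟩ := tm_split k3
        obtain ⟨z, vt, g7, g8, g9⟩ := tm_split g6.symm
        refine Cls.c3 z u (s ++ vt) (u ++ s) vt u' v' B a x u0 v0 ?_ hU (g8 ▸ hR) hab ?_ ?_ ?_ rfl
        · intro hz
          rw [g8, hz] at hxy
          simp at hxy
          simp [hxy] at hx0
        · rw [h3, f1, g5, g9]; simp
        · simp
        · rw [e', g4, g7]; simp

theorem cls {P : Str T N → Str T N → Prop} {S : N}
    (hP : ∀ x y, P x y → x.length ≤ y.length) (hN : ∀ x y, P x y → ∃ A, Symbol.nonterminal A ∈ x)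
    {w : List T} (h : w ∈ JL P S) (hw : 2 ≤ w.length) : Cls P S w := by
  have h' : ReflTransGen (JS P) [Symbol.nonterminal S] (tm w) := h
  rcases ReflTransGen.cases_tail h' with h0 | ⟨c, hc, hs⟩
  · exfalso
    have := congrArg List.length h0
    simp [tm] at this
    omega
  · obtain ⟨x, y, hR, u0, v0, u1, v1, h1, h2, h3⟩ := hs
    rw [h1] at hc
    have hxy := hP x y hR
    obtain ⟨A, hA⟩ := hN x y hR
    have hx0 : 0 < x.length := List.length_pos_of_mem hA
    obtain ⟨wa, vt, g1, g2, g3⟩ := tm_split h2
    obtain ⟨ut, z, g4, g5, g6⟩ := tm_split g2.symm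
    by_cases hz : 2 ≤ z.length
    · exact Cls.c1 z (ut ++ vt) ut vt x u0 v0 hz (g6 ▸ hR) hc (by rw [h3, g5, g3]; simp) rfl
        (by rw [g1, g4])
    · have hyz : y.length = z.length := by rw [g6]; simp [tm]
      have hz1 : z.length = 1 := by omega
      obtain ⟨a, ha⟩ := List.length_eq_one_iff.1 hz1
      have hx1 : x = [Symbol.nonterminal A] := by
        have : x.length = 1 := by omega
        obtain ⟨b, hb⟩ := List.length_eq_one_iff.1 this
        rw [hb] at hA ⊢
        simp at hA
        rw [hA]
      have hU : UnitTo P A a := by
        apply unit_rule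
        rw [g6, ha, hx1] at hR
        exact hR
      have h4 : tm (ut ++ vt) = u0 ++ v0 := by rw [h3, g5, g3]; simp
      obtain ⟨ua, va, g7, g8, g9⟩ := tm_split h4
      have := cls_sub hP hN hc A a ua va (by rw [hx1, g8, g9]) (by
        rw [← g7]
        intro hnil
        have h5 := congrArg List.length g1
        have h6 := congrArg List.length g4
        obtain ⟨h7, h8⟩ := List.append_eq_nil_iff.1 hnil
        rw [h7] at h6
        rw [h8] at h5
        simp only [List.length_append, List.length_nil] at h5 h6
        omega) hU ut vt (by rw [g7])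
      rw [g1, g4, ha]
      exact this

end Cls

end Pool.Agent.Helper309.Jump
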