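import Mathlib
import Pool.Agent.Helper309.Jump4

set_option autoImplicit false

namespace Pool.Agent.Helper309.Jump

open Relation

section Asm

variable {T N : Type} {K : ℕ}

theorem arith1 {W K n R Z : ℕ} (hK : 4 ≤ K) (hW : 2 * K + 16 ≤ W) (h : W ≤ R + Z) (hZ : Z ≤ K + 1)
    (hn : n = R / 2) : W + 3 * K ≤ n * K := by
  have h1 : R ≤ 2 * n + 1 := by omega
  have h2 : W ≤ 2 * n + K + 2 := by omega
  nlinarith

theorem complete1 {P : Str T N → Str T N → Prop} {S : N} {mS : Cell T N K}
    (hP : ∀ x y, P x y → x.length ≤ y.length) (hN : ∀ x y, P x y → ∃ A, Symbol.nonterminal A ∈ x)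
    (hPK : ∀ x y, P x y → y.length ≤ K) (hK : 4 ≤ K) (hmS : mS.1 = [Symbol.nonterminal S]) :
    JL P S ⊆ JL (Rule1 P S (2 * K + 16) mS) NT1.start := by
  intro w hw
  by_cases hlt : w.length < 2 * K + 16
  · have h0 : Reach1 P S (2 * K + 16) mS ([] ++ [Symbol.nonterminal NT1.start] ++ []) :=
      ReflTransGen.refl
    have := h0.step (Rule1.short w hw hlt) [] [] rfl
    change Reach1 P S (2 * K + 16) mS (tm w)
    simpa using this
  · have hW : 2 * K + 16 ≤ w.length := by omega
    change Reach1 P S (2 * K + 16) mS (tm w)
    rcases cls hP hN hw (by omega) with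
      ⟨z, r, u, v, x, U, V, hz, hR, h, e1, e2, e3⟩ |
      ⟨p, q, r, u, v, u', v', B, a, x, U, V, hz, hU, hR, h, e1, e2, e3, e4⟩ |
      ⟨z, r1, r2, u, v, u', v', B, a, x, U, V, hz, hU, hR, h, e1, e2, e3, e4⟩
    · have hzK : z.length ≤ K := by simpa [tm] using hPK _ _ hR
      have hxz : x.length ≤ z.length := by simpa [tm] using hP _ _ hR
      have l1 : U.length + V.length = r.length := by simpa [tm] using congrArg List.length e1
      have l2 : w.length = r.length + z.length := by
        rw [e3, ← e2]; simp only [List.length_append]; omega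
      have hn := arith1 (n := r.length / 2) (Z := z.length) hK hW (le_of_eq l2) (by omega) rfl
      have h1 : RT P S (2 * K + 16) mS (r.length / 2)
          (Sum.inl (some (⟨tm z, by simpa [tm] using hzK⟩ : Cell T N K))) (U ++ V) :=
        sim_mem hP hPK hmS (by omega) hR h (by
          have l0 : (U ++ x ++ V).length = U.length + x.length + V.length := by simp [add_assoc]
          rw [l0]; omega)
      rw [e1] at h1
      have h2 := RT.op (n := r.length / 2) (u := tm r) (v := []) (x := []) (y := []) (by simp) (by simp)
        (Op.f1 (P := P) ⟨z, hzK⟩ ⟨tm z, by simpa [tm] using hzK⟩ rfl hz)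
        (by simp [tm]; omega) (by omega) (by simpa using h1)
      have h3 : RT P S (2 * K + 16) mS (r.length / 2) (Sum.inr (⟨z, hzK⟩, none)) (tm r) := by
        simpa using h2
      have h4 := final_stage (by omega) h3 (by
        by_contra hc
        have : r.length / 2 ≤ 1 := by omega
        have := Nat.mul_le_mul_right K this
        omega) (by omega) (by omega) (by
        intro h; simp only at h; rw [h] at hz; simp at hz) (by simpa [out, tm] using hz)
        (tm u) (tm v) (by rw [← e2]; simp)
      rw [e3]
      simpa [out] using h4
    · have hpq : (tm p ++ [Symbol.nonterminal B] ++ tm q : Str T N).length = p.length + 1 + q.length := by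
        simp [tm]; omega
      have hmK : (tm p ++ [Symbol.nonterminal B] ++ tm q : Str T N).length ≤ K := hPK _ _ hR
      have hxz := hP _ _ hR
      rw [hpq] at hxz
      have hzK : (p ++ q).length ≤ K := by
        rw [List.length_append]; omega
      have l1 : U.length + V.length = r.length := by simpa [tm] using congrArg List.length e1
      have l3 : u'.length + v'.length = u.length + (p.length + q.length) + v.length := by
        simpa [add_assoc] using congrArg List.length e3
      have l4 : u.length + v.length = r.length := by simpa using congrArg List.length e2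
      have l2 : w.length = r.length + (p.length + q.length + 1) := by
        rw [e4]; simp only [List.length_append, List.length_cons, List.length_nil]; omega
      have hn := arith1 (n := r.length / 2) (Z := p.length + q.length + 1) hK hW (le_of_eq l2)
        (by omega) rfl
      have h1 : RT P S (2 * K + 16) mS (r.length / 2)
          (Sum.inl (some (⟨tm p ++ [Symbol.nonterminal B] ++ tm q, hmK⟩ : Cell T N K))) (U ++ V) :=
        sim_mem hP hPK hmS (by omega) hR h (by
          have l0 : (U ++ x ++ V).length = U.length + x.length + V.length := by simp [add_assoc]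
          rw [l0]; omega)
      rw [e1] at h1
      have h2 := RT.op (n := r.length / 2) (u := tm r) (v := []) (x := []) (y := []) (by simp) (by simp)
        (Op.f2 (P := P) ⟨p ++ q, hzK⟩ ⟨tm p ++ [Symbol.nonterminal B] ++ tm q, hmK⟩ p q B a rfl rfl
          hz hU)
        (by simp [tm]; omega) (by omega) (by simpa using h1)
      have h3 : RT P S (2 * K + 16) mS (r.length / 2) (Sum.inr (⟨p ++ q, hzK⟩, some a)) (tm r) := by
        simpa using h2
      have hz1 : 1 ≤ (p ++ q).length := List.length_pos_iff.2 hz
      have h4 := final_stage (by omega) h3 (by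
        by_contra hc
        have : r.length / 2 ≤ 1 := by omega
        have := Nat.mul_le_mul_right K this
        omega) (by omega) (by omega) hz (by simp [out, tm] at hz1 ⊢; omega)
        (tm u) (tm v) (by rw [← e2]; simp)
      have h5 : Reach1 P S (2 * K + 16) mS ((tm u ++ tm (p ++ q)) ++
          [Symbol.nonterminal (NT1.fl a)] ++ tm v) := by
        simpa [out] using h4
      have h6 := h5.step (Rule1.float a) (tm u') (tm v') (by
        rw [← tm_append, e3]; simp)
      rw [e4]
      simpa [tm] using h6
    · have hzK : z.length ≤ K := by simpa [tm] using hPK _ _ hR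
      have hxz : x.length ≤ z.length := by simpa [tm] using hP _ _ hR
      have l1 : U.length + V.length = r1.length + (r2.length + 1) := by
        simpa [tm, add_assoc] using congrArg List.length e1
      have l3 : u'.length + v'.length = u.length + z.length + v.length := by
        simpa [add_assoc] using congrArg List.length e3
      have l4 : u.length + v.length = r1.length + r2.length := by
        simpa using congrArg List.length e2
      have l2 : w.length = (r1 ++ r2).length + (z.length + 1) := by
        rw [e4]; simp only [List.length_append, List.length_cons, List.length_nil]; omega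
      have l5 : (r1 ++ r2).length = r1.length + r2.length := by simp
      have hn := arith1 (n := (r1 ++ r2).length / 2) (Z := z.length + 1) hK hW (le_of_eq l2)
        (by omega) rfl
      have h1 : RT P S (2 * K + 16) mS ((r1 ++ r2).length / 2)
          (Sum.inl (some (⟨tm z, by simpa [tm] using hzK⟩ : Cell T N K))) (U ++ V) :=
        sim_mem hP hPK hmS (by omega) hR h (by
          have l0 : (U ++ x ++ V).length = U.length + x.length + V.length := by simp [add_assoc]
          rw [l0]; omega)
      rw [e1] at h1
      have h2 := RT.op (n := (r1 ++ r2).length / 2) (u := tm r1) (v := tm r2) (x := [Symbol.nonterminal B]) (y := [])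
        (by simp; omega) (by simp)
        (Op.f3 (P := P) ⟨z, hzK⟩ ⟨tm z, by simpa [tm] using hzK⟩ B a rfl hz hU)
        (by simp only [tm, List.length_map]; omega) (by omega) h1
      have h3 : RT P S (2 * K + 16) mS ((r1 ++ r2).length / 2) (Sum.inr (⟨z, hzK⟩, some a))
          (tm (r1 ++ r2)) := by
        simpa using h2
      have hz1 : 1 ≤ z.length := List.length_pos_iff.2 hz
      have h4 := final_stage (by omega) h3 (by
        by_contra hc
        have : (r1 ++ r2).length / 2 ≤ 1 := by omega
        have := Nat.mul_le_mul_right K this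
        omega) (by omega) (by omega) hz (by simp [out, tm] at hz1 ⊢; omega)
        (tm u) (tm v) (by rw [← e2]; simp)
      have h5 : Reach1 P S (2 * K + 16) mS ((tm u ++ tm z) ++
          [Symbol.nonterminal (NT1.fl a)] ++ tm v) := by
        simpa [out] using h4
      have h6 := h5.step (Rule1.float a) (tm u') (tm v') (by
        rw [← tm_append, e3]; simp)
      rw [e4]
      simpa [tm] using h6

theorem finite_rules {M : Type} [Finite T] [Finite M] (R : Str T M → Str T M → Prop) (B : ℕ)
    (hB : ∀ a b, R a b → a.length ≤ B ∧ b.length ≤ B) :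
    {ρ : Str T M × Str T M | R ρ.1 ρ.2}.Finite := by
  have hf : Finite (Symbol T M) := by
    have : Function.Injective (fun x : Symbol T M => match x with
      | Symbol.terminal t => (Sum.inl t : T ⊕ M)
      | Symbol.nonterminal n => Sum.inr n) := by
      intro x y h
      cases x <;> cases y <;> simp_all
    exact Finite.of_injective _ this
  have h1 := List.finite_length_le (Symbol T M) B
  refine (h1.prod h1).subset ?_
  rintro ⟨a, b⟩ h
  exact hB a b h

/-- main theorem, relation form -/
theorem main_rel [Finite T] [Finite N] (P : Str T N → Str T N → Prop) (S : N)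
    (hfin : {ρ : Str T N × Str T N | P ρ.1 ρ.2}.Finite)
    (hP : ∀ x y, P x y → x.length ≤ y.length)
    (hN : ∀ x y, P x y → ∃ A, Symbol.nonterminal A ∈ x) :
    ∃ (N' : Type) (_ : Finite N') (S' : N') (R : Str T N' → Str T N' → Prop),
      {ρ : Str T N' × Str T N' | R ρ.1 ρ.2}.Finite ∧ (∀ a b, R a b → IsCS a b) ∧
      JL P S = JL R S' := by
  obtain ⟨K0, hK0⟩ : ∃ K0, ∀ x y, P x y → y.length ≤ K0 := by
    obtain ⟨B, hB⟩ := (hfin.image (fun ρ => ρ.2.length)).bddAbove
    exact ⟨B, fun x y h => hB ⟨(x, y), h, rfl⟩⟩
  let K := K0 + 4
  let mS : Cell T N K := ⟨[Symbol.nonterminal S], by simp [K]⟩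
  have hPK : ∀ x y, P x y → y.length ≤ K := fun x y h => (hK0 x y h).trans (by omega)
  let R1 := Rule1 P S (2 * K + 16) mS
  have hN1 : ∀ l r, R1 l r → Normal ctl1 l r := normal1 hP
  have e1 : JL R1 NT1.start = JL P S :=
    Set.Subset.antisymm (sound1 rfl) (complete1 hP hN hPK (by omega) rfl)
  have hb1 := bound1 (P := P) (S := S) (w0 := 2 * K + 16) (mS := mS)
  have hf1 := finite_rules R1 _ hb1
  have hRho : Finite (Rho R1) := hf1.to_subtype
  refine ⟨N2 R1, inferInstance, Sum.inl NT1.start, R2 ctl1 R1, ?_, ?_, ?_⟩
  · exact finite_rules _ _ (fun a b h => R2_bound ctl1 R1 hb1 h)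
  · intro a b h
    exact h.1
  · rw [compile_eq ctl1 R1 hN1 (S := NT1.start) trivial, e1]

end Asm

end Pool.Agent.Helper309.Jump
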